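import Mathlib

/-!
Definitions for the counterexample to Han's conjecture (problem MP_92f1cb_al).

`k` is a field (of characteristic zero, algebraically closed where needed).

* `O k` : functions on the curve `E : y^2 = x^3 + x + 1` regular outside infinity and `-P`, where
  `P = (0,1)`: the ring `k[lam][x]/(x^2 = lam^2 x - 1 + 2 lam)`, `lam = (y-1)/x`.
  `x' = lam^2 - x = x(u+P)`, `y = 1 + lam x`, `y' = -1 - lam x' = y(u+P)`.
* `W k = k[x][y]/(y^2 = x^3 + x + 1)`, and `iota : W k → O k`.
* `Lp k n` : functions of `O k` with a pole of order at most `n` at `-P`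
  (that is, `x^n f` in the image of `W k`), `lc k n f` the value of `x^n f` at `-P = (0,-1)`.
* `L k m n` : poles of order at most `m` at infinity and at most `n` at `-P`.
* `B k` : the Beilinson algebra of the projective plane.
* `M k` : matrices over `O k` with `(i,j)` entry in `L k (3*(2-i)+1) (3*j+1)`.
* `A k` : the trivial extension of `B k` by `M k`.
-/

set_option autoImplicit false

open Polynomial

namespace Run7.h258.Han

variable (k : Type) [Field k]

/-- The ring of functions regular outside infinity and `-P`. -/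
def O : Type := QuadraticAlgebra k[X] (2 * X - 1) (X ^ 2)

/-- The ring of functions regular outside infinity. -/
def W : Type := QuadraticAlgebra k[X] (X ^ 3 + X + 1) 0

namespace O

noncomputable instance : CommRing (O k) :=
  inferInstanceAs (CommRing (QuadraticAlgebra k[X] (2 * X - 1) (X ^ 2)))
noncomputable instance : Algebra k[X] (O k) :=
  inferInstanceAs (Algebra k[X] (QuadraticAlgebra k[X] (2 * X - 1) (X ^ 2)))
noncomputable instance : Algebra k (O k) :=
  inferInstanceAs (Algebra k (QuadraticAlgebra k[X] (2 * X - 1) (X ^ 2)))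
instance : IsScalarTower k k[X] (O k) :=
  inferInstanceAs (IsScalarTower k k[X] (QuadraticAlgebra k[X] (2 * X - 1) (X ^ 2)))
instance : Module.Finite k[X] (O k) :=
  inferInstanceAs (Module.Finite k[X] (QuadraticAlgebra k[X] (2 * X - 1) (X ^ 2)))
instance : Module.Free k[X] (O k) :=
  inferInstanceAs (Module.Free k[X] (QuadraticAlgebra k[X] (2 * X - 1) (X ^ 2)))

variable {k}

/-- the element `a + b x`. -/
def mk (a b : k[X]) : O k := (⟨a, b⟩ : QuadraticAlgebra k[X] (2 * X - 1) (X ^ 2))

/-- the coefficient of `1`. -/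
def re (f : O k) : k[X] := QuadraticAlgebra.re f

/-- the coefficient of `x`. -/
def im (f : O k) : k[X] := QuadraticAlgebra.im f

lemma ext {f g : O k} (h0 : f.re = g.re) (h1 : f.im = g.im) : f = g :=
  QuadraticAlgebra.ext h0 h1

@[simp] lemma re_mk (a b : k[X]) : (mk a b).re = a := rfl
@[simp] lemma im_mk (a b : k[X]) : (mk a b).im = b := rfl
@[simp] lemma re_zero : (0 : O k).re = 0 := rfl
@[simp] lemma im_zero : (0 : O k).im = 0 := rfl
@[simp] lemma re_one : (1 : O k).re = 1 := rfl
@[simp] lemma im_one : (1 : O k).im = 0 := rfl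
@[simp] lemma re_add (f g : O k) : (f + g).re = f.re + g.re := rfl
@[simp] lemma im_add (f g : O k) : (f + g).im = f.im + g.im := rfl
@[simp] lemma re_neg (f : O k) : (-f).re = -f.re := rfl
@[simp] lemma im_neg (f : O k) : (-f).im = -f.im := rfl
@[simp] lemma re_sub (f g : O k) : (f - g).re = f.re - g.re := rfl
@[simp] lemma im_sub (f g : O k) : (f - g).im = f.im - g.im := rfl
@[simp] lemma re_mul (f g : O k) : (f * g).re = f.re * g.re + (2 * X - 1) * f.im * g.im := rfl
@[simp] lemma im_mul (f g : O k) :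
    (f * g).im = f.re * g.im + f.im * g.re + X ^ 2 * f.im * g.im := rfl
@[simp] lemma re_smul (c : k) (f : O k) : (c • f).re = c • f.re := rfl
@[simp] lemma im_smul (c : k) (f : O k) : (c • f).im = c • f.im := rfl
@[simp] lemma re_psmul (c : k[X]) (f : O k) : (c • f).re = c * f.re := rfl
@[simp] lemma im_psmul (c : k[X]) (f : O k) : (c • f).im = c * f.im := rfl
@[simp] lemma re_algebraMap (c : k) : (algebraMap k (O k) c).re = C c := rfl
@[simp] lemma im_algebraMap (c : k) : (algebraMap k (O k) c).im = 0 := rfl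
@[simp] lemma re_palgebraMap (c : k[X]) : (algebraMap k[X] (O k) c).re = c := rfl
@[simp] lemma im_palgebraMap (c : k[X]) : (algebraMap k[X] (O k) c).im = 0 := rfl
@[simp] lemma re_ofNat (n : ℕ) [n.AtLeastTwo] : (OfNat.ofNat n : O k).re = OfNat.ofNat n := rfl
@[simp] lemma im_ofNat (n : ℕ) [n.AtLeastTwo] : (OfNat.ofNat n : O k).im = 0 := rfl

lemma mk_eta (f : O k) : mk f.re f.im = f := rfl

end O

namespace W

noncomputable instance : CommRing (W k) :=
  inferInstanceAs (CommRing (QuadraticAlgebra k[X] (X ^ 3 + X + 1) 0))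
noncomputable instance : Algebra k[X] (W k) :=
  inferInstanceAs (Algebra k[X] (QuadraticAlgebra k[X] (X ^ 3 + X + 1) 0))
noncomputable instance : Algebra k (W k) :=
  inferInstanceAs (Algebra k (QuadraticAlgebra k[X] (X ^ 3 + X + 1) 0))

variable {k}

/-- the element `a(x) + b(x) y`. -/
def mk (a b : k[X]) : W k := (⟨a, b⟩ : QuadraticAlgebra k[X] (X ^ 3 + X + 1) 0)

/-- the coefficient of `1`. -/
def re (f : W k) : k[X] := QuadraticAlgebra.re f

/-- the coefficient of `y`. -/
def im (f : W k) : k[X] := QuadraticAlgebra.im f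

lemma ext {f g : W k} (h0 : f.re = g.re) (h1 : f.im = g.im) : f = g :=
  QuadraticAlgebra.ext h0 h1

@[simp] lemma re_mk (a b : k[X]) : (mk a b).re = a := rfl
@[simp] lemma im_mk (a b : k[X]) : (mk a b).im = b := rfl
@[simp] lemma re_zero : (0 : W k).re = 0 := rfl
@[simp] lemma im_zero : (0 : W k).im = 0 := rfl
@[simp] lemma re_one : (1 : W k).re = 1 := rfl
@[simp] lemma im_one : (1 : W k).im = 0 := rfl
@[simp] lemma re_add (f g : W k) : (f + g).re = f.re + g.re := rfl
@[simp] lemma im_add (f g : W k) : (f + g).im = f.im + g.im := rfl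
@[simp] lemma re_neg (f : W k) : (-f).re = -f.re := rfl
@[simp] lemma im_neg (f : W k) : (-f).im = -f.im := rfl
@[simp] lemma re_sub (f g : W k) : (f - g).re = f.re - g.re := rfl
@[simp] lemma im_sub (f g : W k) : (f - g).im = f.im - g.im := rfl
@[simp] lemma re_mul (f g : W k) :
    (f * g).re = f.re * g.re + (X ^ 3 + X + 1) * f.im * g.im := rfl
@[simp] lemma im_mul (f g : W k) : (f * g).im = f.re * g.im + f.im * g.re := by
  have h : (f * g).im = f.re * g.im + f.im * g.re + 0 * f.im * g.im := rfl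
  rw [h]; ring
@[simp] lemma re_smul (c : k) (f : W k) : (c • f).re = c • f.re := rfl
@[simp] lemma im_smul (c : k) (f : W k) : (c • f).im = c • f.im := rfl
@[simp] lemma re_algebraMap (c : k) : (algebraMap k (W k) c).re = C c := rfl
@[simp] lemma im_algebraMap (c : k) : (algebraMap k (W k) c).im = 0 := rfl
@[simp] lemma re_ofNat (n : ℕ) [n.AtLeastTwo] : (OfNat.ofNat n : W k).re = OfNat.ofNat n := rfl
@[simp] lemma im_ofNat (n : ℕ) [n.AtLeastTwo] : (OfNat.ofNat n : W k).im = 0 := rfl

lemma mk_eta (f : W k) : mk f.re f.im = f := rfl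

end W

/-- `lam = (y - 1) / x`. -/
noncomputable def lam : O k := O.mk X 0

/-- the coordinate `x`. -/
noncomputable def ox : O k := O.mk 0 1

/-- the coordinate `x'` (that is, `x (u + P)`). -/
noncomputable def ox' : O k := O.mk (X ^ 2) (-1)

/-- the coordinate `y`. -/
noncomputable def oy : O k := O.mk 1 X

/-- the coordinate `y'` (that is, `y (u + P)`). -/
noncomputable def oy' : O k := O.mk (-1 - X ^ 3) X

/-- The involution `u ↦ -P - u`: it exchanges infinity and `-P`. It fixes `lam`, exchanges `x` and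
`x'`, and sends `y` to `-y'`. -/
noncomputable def tau : O k →ₐ[k] O k where
  toFun f := O.mk (f.re + X ^ 2 * f.im) (-f.im)
  map_one' := by apply O.ext <;> simp
  map_mul' f g := by apply O.ext <;> simp <;> ring
  map_zero' := by apply O.ext <;> simp
  map_add' f g := by apply O.ext <;> simp <;> ring
  commutes' r := by apply O.ext <;> simp

@[simp] lemma re_tau (f : O k) : (tau k f).re = f.re + X ^ 2 * f.im := rfl
@[simp] lemma im_tau (f : O k) : (tau k f).im = - f.im := rfl

/-- The inclusion `W → O`: for `w = w.re(x) + w.im(x) y`. -/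
noncomputable def iota : W k →ₐ[k] O k where
  toFun w := aeval (ox k) w.re + aeval (ox k) w.im * oy k
  map_one' := by simp
  map_mul' f g := by
    have h : oy k * oy k = ox k ^ 3 + ox k + 1 := by
      apply O.ext <;> simp [ox, oy, pow_succ] <;> ring
    simp only [W.re_mul, W.im_mul, map_add, map_mul, map_one, map_pow, aeval_X]
    linear_combination (-(aeval (ox k) f.im * aeval (ox k) g.im)) * h
  map_zero' := by simp
  map_add' f g := by simp; ring
  commutes' r := by simp

lemma iota_apply (w : W k) :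
    iota k w = aeval (ox k) w.re + aeval (ox k) w.im * oy k := rfl

/-- The value of a function of `W` at the point `(a, b)` of the curve. -/
noncomputable def evW (a b : k) : W k →ₗ[k] k where
  toFun w := w.re.eval a + w.im.eval a * b
  map_add' f g := by simp; ring
  map_smul' r f := by simp; ring

/-- The functions of `O k` with a pole of order at most `n` at `-P` (and any poles at infinity). -/
noncomputable def Lp (n : ℕ) : Submodule k (O k) where
  carrier := {f | ∃ w : W k, iota k w = ox k ^ n * f}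
  add_mem' := by
    rintro f g ⟨w, hw⟩ ⟨v, hv⟩
    exact ⟨w + v, by rw [map_add, hw, hv]; ring⟩
  zero_mem' := ⟨0, by simp⟩
  smul_mem' := by
    rintro c f ⟨w, hw⟩
    exact ⟨c • w, by rw [map_smul, hw, mul_smul_comm]⟩

open Classical in
/-- The value at `-P = (0,-1)` of `x ^ n * f`, for `f ∈ Lp k n` (and `0` for other `f`). -/
noncomputable def lc (n : ℕ) (f : O k) : k :=
  if h : ∃ w : W k, iota k w = ox k ^ n * f then evW k 0 (-1) h.choose else 0

/-- The functions with poles of order at most `m` at infinity, and at most `n` at `-P`. -/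
noncomputable def L (m n : ℕ) : Submodule k (O k) where
  carrier := {f | tau k f ∈ Lp k m ∧ f ∈ Lp k n}
  add_mem' := by
    rintro f g ⟨h1, h2⟩ ⟨h3, h4⟩
    exact ⟨by rw [map_add]; exact add_mem h1 h3, add_mem h2 h4⟩
  zero_mem' := ⟨by rw [map_zero]; exact zero_mem _, zero_mem _⟩
  smul_mem' := by
    rintro c f ⟨h1, h2⟩
    exact ⟨by rw [map_smul]; exact Submodule.smul_mem _ _ h1, Submodule.smul_mem _ _ h2⟩

/-- the vector `(1, x, y)`. -/
noncomputable def vx : Fin 3 → O k := ![1, ox k, oy k]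

/-- the vector `(1, x', y')`. -/
noncomputable def vx' : Fin 3 → O k := ![1, ox' k, oy' k]

/-! ### The Beilinson algebra of the plane -/

section Beil

variable {R : Type} [CommRing R]

/-- The product of two linear forms: a quadratic form, with coordinates in the order
`00, 01, 02, 11, 12, 22`. -/
def sm (s t : Fin 3 → R) : Fin 6 → R :=
  ![s 0 * t 0, s 0 * t 1 + s 1 * t 0, s 0 * t 2 + s 2 * t 0, s 1 * t 1, s 1 * t 2 + s 2 * t 1,
    s 2 * t 2]

/-- The value of a linear form at a vector. -/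
def le [Algebra k R] (s : Fin 3 → k) (p : Fin 3 → R) : R := s 0 • p 0 + s 1 • p 1 + s 2 • p 2

/-- The value of a quadratic form at a vector. -/
def qe [Algebra k R] (w : Fin 6 → k) (p : Fin 3 → R) : R :=
  w 0 • (p 0 * p 0) + w 1 • (p 0 * p 1) + w 2 • (p 0 * p 2) + w 3 • (p 1 * p 1) +
    w 4 • (p 1 * p 2) + w 5 • (p 2 * p 2)

end Beil

/-- The Beilinson algebra of the plane: a triple of scalars (the diagonal entries), a linear form
(the entry `01`), a linear form (the entry `12`), a quadratic form (the entry `02`). -/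
def B : Type := (Fin 3 → k) × (Fin 3 → k) × (Fin 3 → k) × (Fin 6 → k)

namespace B

variable {k}

instance : AddCommGroup (B k) :=
  inferInstanceAs (AddCommGroup ((Fin 3 → k) × (Fin 3 → k) × (Fin 3 → k) × (Fin 6 → k)))

instance : Module k (B k) :=
  inferInstanceAs (Module k ((Fin 3 → k) × (Fin 3 → k) × (Fin 3 → k) × (Fin 6 → k)))

instance : Module.Finite k (B k) :=
  inferInstanceAs (Module.Finite k ((Fin 3 → k) × (Fin 3 → k) × (Fin 3 → k) × (Fin 6 → k)))

/-- the element with given entries. -/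
def mk (a u v : Fin 3 → k) (w : Fin 6 → k) : B k := (a, u, v, w)

/-- the diagonal entries. -/
def a : B k →ₗ[k] (Fin 3 → k) := LinearMap.fst k _ _

/-- the entry `01`. -/
def u : B k →ₗ[k] (Fin 3 → k) := (LinearMap.fst k _ _).comp (LinearMap.snd k _ _)

/-- the entry `12`. -/
def v : B k →ₗ[k] (Fin 3 → k) :=
  (LinearMap.fst k _ _).comp ((LinearMap.snd k _ _).comp (LinearMap.snd k _ _))

/-- the entry `02`. -/
def w : B k →ₗ[k] (Fin 6 → k) :=
  (LinearMap.snd k _ _).comp ((LinearMap.snd k _ _).comp (LinearMap.snd k _ _))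

@[simp] lemma a_mk (a u v : Fin 3 → k) (w : Fin 6 → k) : B.a (mk a u v w) = a := rfl
@[simp] lemma u_mk (a u v : Fin 3 → k) (w : Fin 6 → k) : B.u (mk a u v w) = u := rfl
@[simp] lemma v_mk (a u v : Fin 3 → k) (w : Fin 6 → k) : B.v (mk a u v w) = v := rfl
@[simp] lemma w_mk (a u v : Fin 3 → k) (w : Fin 6 → k) : B.w (mk a u v w) = w := rfl

lemma ext {b c : B k} (h0 : b.a = c.a) (h1 : b.u = c.u) (h2 : b.v = c.v) (h3 : b.w = c.w) :
    b = c := Prod.ext h0 (Prod.ext h1 (Prod.ext h2 h3))

instance : Mul (B k) where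
  mul b c := mk (b.a * c.a) (b.a 0 • c.u + c.a 1 • b.u) (b.a 1 • c.v + c.a 2 • b.v)
    (b.a 0 • c.w + sm b.u c.v + c.a 2 • b.w)

instance : One (B k) where
  one := mk 1 0 0 0

@[simp] lemma a_mul (b c : B k) : (b * c).a = b.a * c.a := rfl
@[simp] lemma u_mul (b c : B k) : (b * c).u = b.a 0 • c.u + c.a 1 • b.u := rfl
@[simp] lemma v_mul (b c : B k) : (b * c).v = b.a 1 • c.v + c.a 2 • b.v := rfl
@[simp] lemma w_mul (b c : B k) : (b * c).w = b.a 0 • c.w + sm b.u c.v + c.a 2 • b.w := rfl
@[simp] lemma a_one : (1 : B k).a = 1 := rfl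
@[simp] lemma u_one : (1 : B k).u = 0 := rfl
@[simp] lemma v_one : (1 : B k).v = 0 := rfl
@[simp] lemma w_one : (1 : B k).w = 0 := rfl

lemma sm_add_left (s t r : Fin 3 → k) : sm (s + t) r = sm s r + sm t r := by
  funext i; fin_cases i <;> simp [sm] <;> ring
lemma sm_add_right (s t r : Fin 3 → k) : sm r (s + t) = sm r s + sm r t := by
  funext i; fin_cases i <;> simp [sm] <;> ring
lemma sm_smul_left (c : k) (s r : Fin 3 → k) : sm (c • s) r = c • sm s r := by
  funext i; fin_cases i <;> simp [sm] <;> ring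
lemma sm_smul_right (c : k) (s r : Fin 3 → k) : sm r (c • s) = c • sm r s := by
  funext i; fin_cases i <;> simp [sm] <;> ring
lemma sm_zero_left (s : Fin 3 → k) : sm 0 s = 0 := by
  funext i; fin_cases i <;> simp [sm]
lemma sm_zero_right (s : Fin 3 → k) : sm s 0 = 0 := by
  funext i; fin_cases i <;> simp [sm]

instance : Ring (B k) :=
  { (inferInstance : AddCommGroup (B k)) with
    mul := (· * ·)
    one := 1
    left_distrib := fun b c d => by
      apply ext <;> simp [mul_add, add_smul, smul_add, sm_add_right] <;> abel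
    right_distrib := fun b c d => by
      apply ext <;> simp [add_mul, add_smul, smul_add, sm_add_left] <;> abel
    zero_mul := fun b => by apply ext <;> simp [sm_zero_left]
    mul_zero := fun b => by apply ext <;> simp [sm_zero_right]
    one_mul := fun b => by apply ext <;> simp [sm_zero_left]
    mul_one := fun b => by apply ext <;> simp [sm_zero_right]
    mul_assoc := fun b c d => by
      apply ext
      · simp [mul_assoc]
      · simp [smul_add, smul_smul, mul_comm, add_assoc]
      · simp [smul_add, smul_smul, mul_comm, add_assoc]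
      · simp only [w_mul, a_mul, Pi.mul_apply, u_mul, v_mul, smul_add, sm_add_left, sm_add_right,
          sm_smul_left, sm_smul_right, smul_smul]
        rw [mul_comm (d.a 2) (b.a 0), mul_comm (d.a 2) (c.a 2)]
        abel }

instance : Algebra k (B k) :=
  Algebra.ofModule
    (fun c b d => by
      apply ext <;> simp [smul_smul, smul_add, sm_smul_left, mul_comm])
    (fun c b d => by
      apply ext <;> simp [smul_smul, smul_add, sm_smul_right, mul_comm])

lemma algebraMap_eq (c : k) : algebraMap k (B k) c = mk (fun _ => c) 0 0 0 := by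
  rw [Algebra.algebraMap_eq_smul_one]
  apply ext <;> simp
  funext i
  simp

end B

section rho

variable {R : Type} [CommRing R] [Algebra k R]

lemma le_add (s t : Fin 3 → k) (p : Fin 3 → R) : le k (s + t) p = le k s p + le k t p := by
  simp only [le, Pi.add_apply, add_smul]; abel
lemma le_smul (c : k) (s : Fin 3 → k) (p : Fin 3 → R) : le k (c • s) p = c • le k s p := by
  simp only [le, Pi.smul_apply, smul_eq_mul, mul_smul, smul_add]
lemma le_zero (p : Fin 3 → R) : le k 0 p = 0 := by simp [le]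
lemma qe_add (s t : Fin 6 → k) (p : Fin 3 → R) : qe k (s + t) p = qe k s p + qe k t p := by
  simp only [qe, Pi.add_apply, add_smul]; abel
lemma qe_smul (c : k) (s : Fin 6 → k) (p : Fin 3 → R) : qe k (c • s) p = c • qe k s p := by
  simp only [qe, Pi.smul_apply, smul_eq_mul, mul_smul, smul_add]
lemma qe_zero (p : Fin 3 → R) : qe k 0 p = 0 := by simp [qe]
lemma qe_sm (s t : Fin 3 → k) (p : Fin 3 → R) : qe k (sm s t) p = le k s p * le k t p := by
  simp only [qe, sm, le, Algebra.smul_def]
  simp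
  ring

/-- The representation of the Beilinson algebra by evaluation at a vector. -/
def rho (p : Fin 3 → R) : B k →ₐ[k] Matrix (Fin 3) (Fin 3) R where
  toFun b := !![b.a 0 • (1 : R), le k b.u p, qe k b.w p;
                0, b.a 1 • (1 : R), le k b.v p;
                0, 0, b.a 2 • (1 : R)]
  map_one' := by
    ext i j; fin_cases i <;> fin_cases j <;> simp [le, qe]
  map_mul' b c := by
    simp only [B.a_mul, B.u_mul, B.v_mul, B.w_mul, le_add, le_smul, qe_add, qe_smul, qe_sm,
      Matrix.mul_fin_three, Pi.mul_apply]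
    ext i j
    fin_cases i <;> fin_cases j <;> simp [Algebra.smul_def] <;> ring
  map_zero' := by
    ext i j; fin_cases i <;> fin_cases j <;> simp [le, qe]
  map_add' b c := by
    simp only [map_add, le_add, qe_add, Pi.add_apply, add_smul]
    ext i j
    fin_cases i <;> fin_cases j <;> simp
  commutes' c := by
    rw [B.algebraMap_eq]
    ext i j
    fin_cases i <;> fin_cases j <;>
      simp [le, qe, Algebra.smul_def, Matrix.algebraMap_matrix_apply]

lemma rho_apply (p : Fin 3 → R) (b : B k) : rho k p b =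
    !![b.a 0 • (1 : R), le k b.u p, qe k b.w p;
                0, b.a 1 • (1 : R), le k b.v p;
                0, 0, b.a 2 • (1 : R)] := rfl

end rho

/-! ### First facts on `O` and `L` -/

section OL

lemma oy_eq : oy k = 1 + lam k * ox k := by
  apply O.ext <;> simp [oy, lam, ox]

lemma ox'_eq : ox' k = lam k ^ 2 - ox k := by
  apply O.ext <;> simp [ox', lam, ox, pow_two]

lemma oy'_eq : oy' k = -1 - lam k * ox' k := by
  apply O.ext
  · simp [oy', ox', lam]
    ring
  · simp [oy', ox', lam]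

lemma ox_sq : ox k ^ 2 = lam k ^ 2 * ox k - 1 + 2 * lam k := by
  rw [two_mul]
  apply O.ext
  · simp [lam, ox, pow_two]
    ring
  · simp [lam, ox, pow_two]

lemma ox_mul_ox' : ox k * ox' k = 1 - 2 * lam k := by
  rw [ox'_eq]; linear_combination - ox_sq k

lemma oy_sq : oy k ^ 2 = ox k ^ 3 + ox k + 1 := by
  rw [oy_eq]; linear_combination (-ox k) * ox_sq k

lemma oy'_sq : oy' k ^ 2 = ox' k ^ 3 + ox' k + 1 := by
  rw [oy'_eq]
  have h : ox' k ^ 2 = lam k ^ 2 * ox' k - 1 + 2 * lam k := by
    rw [ox'_eq]; linear_combination ox_sq k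
  linear_combination (-ox' k) * h

lemma lam_mul_ox : lam k * ox k = oy k - 1 := by rw [oy_eq]; ring

lemma lam_mul_ox' : lam k * ox' k = -(oy' k + 1) := by rw [oy'_eq]; ring

lemma lam_mul_oy : lam k * (oy k + 1) = ox k ^ 2 + 1 := by
  rw [oy_eq]; linear_combination - ox_sq k

lemma lam_mul_oy' : lam k * (oy' k - 1) = -(ox' k ^ 2 + 1) := by
  have h : ox' k ^ 2 = lam k ^ 2 * ox' k - 1 + 2 * lam k := by
    rw [ox'_eq]; linear_combination ox_sq k
  rw [oy'_eq]; linear_combination h

lemma ox_sq_mul_ox' : ox k ^ 2 * ox' k = ox k - 2 * oy k + 2 := by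
  rw [pow_two, mul_assoc, ox_mul_ox', oy_eq]; ring

lemma tau_lam : tau k (lam k) = lam k := by
  apply O.ext <;> simp [tau, lam]

lemma tau_ox : tau k (ox k) = ox' k := by
  apply O.ext <;> simp [tau, ox, ox']

lemma tau_ox' : tau k (ox' k) = ox k := by
  apply O.ext <;> simp [tau, ox, ox']

lemma tau_tau (f : O k) : tau k (tau k f) = f := by
  apply O.ext <;> simp [tau]

lemma tau_oy : tau k (oy k) = - oy' k := by
  rw [oy_eq, oy'_eq, map_add, map_mul, map_one, tau_lam, tau_ox]; ring

lemma tau_oy' : tau k (oy' k) = - oy k := by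
  rw [oy_eq, oy'_eq, map_sub, map_mul, map_neg, map_one, tau_lam, tau_ox']; ring

lemma iota_X : iota k (W.mk X 0) = ox k := by simp [iota_apply]

lemma iota_Y : iota k (W.mk 0 1) = oy k := by simp [iota_apply]

/-- The functions regular outside infinity: the image of `W`. -/
lemma ox_mem_range : ∃ w, iota k w = ox k := ⟨_, iota_X k⟩

variable {k}

lemma mem_Lp_iff {n : ℕ} {f : O k} : f ∈ Lp k n ↔ ∃ w : W k, iota k w = ox k ^ n * f := Iff.rfl

lemma Lp_mono {m n : ℕ} (h : m ≤ n) {f : O k} (hf : f ∈ Lp k m) : f ∈ Lp k n := by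
  obtain ⟨w, hw⟩ := hf
  obtain ⟨d, rfl⟩ := Nat.exists_eq_add_of_le h
  exact ⟨W.mk X 0 ^ d * w, by rw [map_mul, map_pow, iota_X, hw]; ring⟩

lemma Lp_mul {m n : ℕ} {f g : O k} (hf : f ∈ Lp k m) (hg : g ∈ Lp k n) :
    f * g ∈ Lp k (m + n) := by
  obtain ⟨w, hw⟩ := hf
  obtain ⟨v, hv⟩ := hg
  exact ⟨w * v, by rw [map_mul, hw, hv]; ring⟩

lemma one_mem_Lp : (1 : O k) ∈ Lp k 0 := ⟨1, by simp⟩

lemma ox_mem_Lp : ox k ∈ Lp k 0 := ⟨_, by rw [iota_X]; simp⟩

lemma oy_mem_Lp : oy k ∈ Lp k 0 := ⟨_, by rw [iota_Y]; simp⟩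

lemma lam_mem_Lp : lam k ∈ Lp k 1 :=
  ⟨W.mk 0 1 - 1, by rw [map_sub, iota_Y, map_one, pow_one, mul_comm, lam_mul_ox]⟩

lemma ox'_mem_Lp : ox' k ∈ Lp k 2 :=
  ⟨W.mk X 0 - 2 * W.mk 0 1 + 2, by
    rw [map_add, map_sub, map_mul, iota_Y, iota_X, map_ofNat, ox_sq_mul_ox']⟩

lemma oy'_mem_Lp : oy' k ∈ Lp k 3 := by
  rw [oy'_eq]
  exact sub_mem (neg_mem (Lp_mono (by omega) one_mem_Lp))
    (Lp_mul (m := 1) (n := 2) lam_mem_Lp ox'_mem_Lp)

lemma mem_L_iff {m n : ℕ} {f : O k} : f ∈ L k m n ↔ tau k f ∈ Lp k m ∧ f ∈ Lp k n := Iff.rfl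

lemma L_mono {m n m' n' : ℕ} (h : m ≤ m') (h' : n ≤ n') {f : O k} (hf : f ∈ L k m n) :
    f ∈ L k m' n' := by
  rw [mem_L_iff] at hf ⊢
  exact ⟨Lp_mono h hf.1, Lp_mono h' hf.2⟩

lemma L_mul {m n m' n' : ℕ} {f g : O k} (hf : f ∈ L k m n) (hg : g ∈ L k m' n') :
    f * g ∈ L k (m + m') (n + n') := by
  rw [mem_L_iff] at hf hg ⊢
  rw [map_mul]
  exact ⟨Lp_mul hf.1 hg.1, Lp_mul hf.2 hg.2⟩

lemma one_mem_L : (1 : O k) ∈ L k 0 0 := by
  rw [mem_L_iff, map_one]
  exact ⟨one_mem_Lp, one_mem_Lp⟩

lemma lam_mem_L : lam k ∈ L k 1 1 := by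
  rw [mem_L_iff, tau_lam]
  exact ⟨lam_mem_Lp, lam_mem_Lp⟩

lemma ox_mem_L : ox k ∈ L k 2 0 := by
  rw [mem_L_iff, tau_ox]
  exact ⟨ox'_mem_Lp, ox_mem_Lp⟩

lemma ox'_mem_L : ox' k ∈ L k 0 2 := by
  rw [mem_L_iff, tau_ox']
  exact ⟨ox_mem_Lp, ox'_mem_Lp⟩

lemma oy_mem_L : oy k ∈ L k 3 0 := by
  rw [mem_L_iff, tau_oy]
  exact ⟨neg_mem oy'_mem_Lp, oy_mem_Lp⟩

lemma oy'_mem_L : oy' k ∈ L k 0 3 := by
  rw [mem_L_iff, tau_oy']
  exact ⟨neg_mem oy_mem_Lp, oy'_mem_Lp⟩

lemma vx_mem_L (i : Fin 3) : vx k i ∈ L k 3 0 := by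
  fin_cases i
  · exact L_mono (by omega) (by omega) one_mem_L
  · exact L_mono (by omega) (by omega) ox_mem_L
  · exact oy_mem_L

lemma vx'_mem_L (i : Fin 3) : vx' k i ∈ L k 0 3 := by
  fin_cases i
  · exact L_mono (by omega) (by omega) one_mem_L
  · exact L_mono (by omega) (by omega) ox'_mem_L
  · exact oy'_mem_L

lemma le_vx_mem_L (s : Fin 3 → k) : le k s (vx k) ∈ L k 3 0 :=
  add_mem (add_mem (Submodule.smul_mem _ _ (vx_mem_L 0)) (Submodule.smul_mem _ _ (vx_mem_L 1)))
    (Submodule.smul_mem _ _ (vx_mem_L 2))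

lemma le_vx'_mem_L (s : Fin 3 → k) : le k s (vx' k) ∈ L k 0 3 :=
  add_mem (add_mem (Submodule.smul_mem _ _ (vx'_mem_L 0)) (Submodule.smul_mem _ _ (vx'_mem_L 1)))
    (Submodule.smul_mem _ _ (vx'_mem_L 2))

lemma qe_vx_mem_L (s : Fin 6 → k) : qe k s (vx k) ∈ L k 6 0 := by
  have h (i j : Fin 3) : vx k i * vx k j ∈ L k 6 0 :=
    L_mono (by omega) (by omega) (L_mul (vx_mem_L i) (vx_mem_L j))
  exact add_mem (add_mem (add_mem (add_mem (add_mem (Submodule.smul_mem _ _ (h _ _))
    (Submodule.smul_mem _ _ (h _ _))) (Submodule.smul_mem _ _ (h _ _)))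
    (Submodule.smul_mem _ _ (h _ _))) (Submodule.smul_mem _ _ (h _ _)))
    (Submodule.smul_mem _ _ (h _ _))

lemma qe_vx'_mem_L (s : Fin 6 → k) : qe k s (vx' k) ∈ L k 0 6 := by
  have h (i j : Fin 3) : vx' k i * vx' k j ∈ L k 0 6 :=
    L_mono (by omega) (by omega) (L_mul (vx'_mem_L i) (vx'_mem_L j))
  exact add_mem (add_mem (add_mem (add_mem (add_mem (Submodule.smul_mem _ _ (h _ _))
    (Submodule.smul_mem _ _ (h _ _))) (Submodule.smul_mem _ _ (h _ _)))
    (Submodule.smul_mem _ _ (h _ _))) (Submodule.smul_mem _ _ (h _ _)))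
    (Submodule.smul_mem _ _ (h _ _))

end OL

/-! ### The matrices `M` and the algebra `A` -/

/-- The matrices with `(i,j)` entry in `L (3*(2-i)+1+N) (3*j+1+N)`. -/
noncomputable def MN (N : ℕ) : Submodule k (Matrix (Fin 3) (Fin 3) (O k)) where
  carrier := {m | ∀ i j : Fin 3,
    m i j ∈ L k (3 * (2 - (i : ℕ)) + 1 + N) (3 * (j : ℕ) + 1 + N)}
  add_mem' := fun h h' i j => add_mem (h i j) (h' i j)
  zero_mem' := fun _ _ => zero_mem _
  smul_mem' := fun c _ h i j => Submodule.smul_mem _ c (h i j)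

/-- The bimodule `M`. -/
noncomputable abbrev M : Submodule k (Matrix (Fin 3) (Fin 3) (O k)) := MN k 0

variable {k}

/-- left multiplication by the Beilinson algebra, through `(1, x, y)`. -/
lemma rho_mul_mem {N : ℕ} (b : B k) {m : Matrix (Fin 3) (Fin 3) (O k)} (hm : m ∈ MN k N) :
    rho k (vx k) b * m ∈ MN k N := by
  have h1 : ∀ s : Fin 3 → k, ∀ f : O k, ∀ n p, f ∈ L k n p → le k s (vx k) * f ∈ L k (n + 3) p :=
    fun s f n p hf => L_mono (by omega) (by omega) (L_mul (le_vx_mem_L s) hf)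
  have h2 : ∀ s : Fin 6 → k, ∀ f : O k, ∀ n p, f ∈ L k n p → qe k s (vx k) * f ∈ L k (n + 6) p :=
    fun s f n p hf => L_mono (by omega) (by omega) (L_mul (qe_vx_mem_L s) hf)
  have h0 : ∀ s : k, ∀ f : O k, ∀ n p, f ∈ L k n p → s • (1 : O k) * f ∈ L k n p :=
    fun s f n p hf => by rw [smul_one_mul]; exact Submodule.smul_mem _ _ hf
  have hm' : ∀ i j : Fin 3, m i j ∈ L k (3 * (2 - (i : ℕ)) + 1 + N) (3 * (j : ℕ) + 1 + N) := hm
  intro i j
  rw [Matrix.mul_apply, Fin.sum_univ_three, rho_apply]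
  have e0 := hm' 0 j
  have e1 := hm' 1 j
  have e2 := hm' 2 j
  fin_cases i
  · simp only [Fin.zero_eta, Fin.isValue, Matrix.cons_val', Matrix.cons_val_zero,
      Matrix.cons_val_fin_one, Matrix.of_apply, Matrix.cons_val_one, Matrix.cons_val]
    exact add_mem (add_mem (h0 _ _ _ _ e0)
      (L_mono (by simp; omega) (by simp) (h1 _ _ _ _ e1)))
      (L_mono (by simp; omega) (by simp) (h2 _ _ _ _ e2))
  · simp only [Fin.mk_one, Fin.isValue, Matrix.cons_val', Matrix.cons_val_zero, Matrix.cons_val,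
      Matrix.cons_val_fin_one, Matrix.of_apply, Matrix.cons_val_one, zero_mul, zero_add]
    exact add_mem (h0 _ _ _ _ e1) (L_mono (by simp; omega) (by simp) (h1 _ _ _ _ e2))
  · simp only [Fin.reduceFinMk, Fin.isValue, Matrix.cons_val', Matrix.cons_val_zero,
      Matrix.cons_val, Matrix.cons_val_fin_one, Matrix.of_apply, Matrix.cons_val_one, zero_mul,
      zero_add]
    exact h0 _ _ _ _ e2

/-- right multiplication by the Beilinson algebra, through `(1, x', y')`. -/
lemma mul_rho_mem {N : ℕ} (b : B k) {m : Matrix (Fin 3) (Fin 3) (O k)} (hm : m ∈ MN k N) :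
    m * rho k (vx' k) b ∈ MN k N := by
  have h1 : ∀ s : Fin 3 → k, ∀ f : O k, ∀ n p, f ∈ L k n p →
      f * le k s (vx' k) ∈ L k n (p + 3) :=
    fun s f n p hf => L_mono (by omega) (by omega) (L_mul hf (le_vx'_mem_L s))
  have h2 : ∀ s : Fin 6 → k, ∀ f : O k, ∀ n p, f ∈ L k n p →
      f * qe k s (vx' k) ∈ L k n (p + 6) :=
    fun s f n p hf => L_mono (by omega) (by omega) (L_mul hf (qe_vx'_mem_L s))
  have h0 : ∀ s : k, ∀ f : O k, ∀ n p, f ∈ L k n p → f * s • (1 : O k) ∈ L k n p :=
    fun s f n p hf => by rw [mul_smul_one]; exact Submodule.smul_mem _ _ hf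
  have hm' : ∀ i j : Fin 3, m i j ∈ L k (3 * (2 - (i : ℕ)) + 1 + N) (3 * (j : ℕ) + 1 + N) := hm
  intro i j
  rw [Matrix.mul_apply, Fin.sum_univ_three, rho_apply]
  have e0 := hm' i 0
  have e1 := hm' i 1
  have e2 := hm' i 2
  fin_cases j
  · simp only [Fin.zero_eta, Fin.isValue, Matrix.cons_val', Matrix.cons_val_zero,
      Matrix.cons_val_fin_one, Matrix.of_apply, Matrix.cons_val_one, Matrix.cons_val, mul_zero,
      add_zero]
    exact h0 _ _ _ _ e0
  · simp only [Fin.mk_one, Fin.isValue, Matrix.cons_val', Matrix.cons_val_zero, Matrix.cons_val,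
      Matrix.cons_val_fin_one, Matrix.of_apply, Matrix.cons_val_one, mul_zero, add_zero]
    exact add_mem (L_mono (by simp) (by simp; omega) (h1 _ _ _ _ e0)) (h0 _ _ _ _ e1)
  · simp only [Fin.reduceFinMk, Fin.isValue, Matrix.cons_val', Matrix.cons_val_zero,
      Matrix.cons_val, Matrix.cons_val_fin_one, Matrix.of_apply, Matrix.cons_val_one]
    exact add_mem (add_mem (L_mono (by simp) (by simp; omega) (h2 _ _ _ _ e0))
      (L_mono (by simp) (by simp; omega) (h1 _ _ _ _ e1))) (h0 _ _ _ _ e2)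

variable (k)

/-- The algebra of the counterexample. -/
def A : Type := B k × M k

namespace A

variable {k}

noncomputable instance : AddCommGroup (A k) := inferInstanceAs (AddCommGroup (B k × M k))

noncomputable instance : Module k (A k) := inferInstanceAs (Module k (B k × M k))

/-- the component in the Beilinson algebra. -/
noncomputable def bb : A k →ₗ[k] B k := LinearMap.fst k (B k) (M k)

/-- the component in `M`, as a matrix. -/
noncomputable def mm : A k →ₗ[k] Matrix (Fin 3) (Fin 3) (O k) :=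
  (M k).subtype.comp (LinearMap.snd k (B k) (M k))

lemma mm_mem (a : A k) : mm a ∈ M k := (Prod.snd a).2

/-- the element with given components. -/
noncomputable def mk (b : B k) (m : Matrix (Fin 3) (Fin 3) (O k)) (hm : m ∈ M k) : A k :=
  (b, ⟨m, hm⟩)

@[simp] lemma bb_mk (b : B k) (m : Matrix (Fin 3) (Fin 3) (O k)) (hm : m ∈ M k) :
    bb (mk b m hm) = b := rfl
@[simp] lemma mm_mk (b : B k) (m : Matrix (Fin 3) (Fin 3) (O k)) (hm : m ∈ M k) :
    mm (mk b m hm) = m := rfl

lemma ext {a c : A k} (h0 : bb a = bb c) (h1 : mm a = mm c) : a = c :=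
  Prod.ext h0 (Subtype.ext h1)

noncomputable instance : Mul (A k) where
  mul a c := mk (bb a * bb c) (rho k (vx k) (bb a) * mm c + mm a * rho k (vx' k) (bb c))
    (add_mem (rho_mul_mem _ (mm_mem c)) (mul_rho_mem _ (mm_mem a)))

noncomputable instance : One (A k) where
  one := mk 1 0 (zero_mem _)

@[simp] lemma bb_mul (a c : A k) : bb (a * c) = bb a * bb c := rfl
@[simp] lemma mm_mul (a c : A k) :
    mm (a * c) = rho k (vx k) (bb a) * mm c + mm a * rho k (vx' k) (bb c) := rfl
@[simp] lemma bb_one : bb (1 : A k) = 1 := rfl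
@[simp] lemma mm_one : mm (1 : A k) = 0 := rfl

noncomputable instance : Ring (A k) :=
  { (inferInstance : AddCommGroup (A k)) with
    mul := (· * ·)
    one := 1
    left_distrib := fun b c d => by
      apply ext
      · simp [mul_add]
      · simp [mul_add]
        abel
    right_distrib := fun b c d => by
      apply ext
      · simp [add_mul]
      · simp [add_mul]
        abel
    zero_mul := fun b => by apply ext <;> simp
    mul_zero := fun b => by apply ext <;> simp
    one_mul := fun b => by apply ext <;> simp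
    mul_one := fun b => by apply ext <;> simp
    mul_assoc := fun b c d => by
      apply ext
      · simp [mul_assoc]
      · simp [mul_add, add_mul, mul_assoc, add_assoc] }

noncomputable instance : Algebra k (A k) :=
  Algebra.ofModule
    (fun c b d => by apply ext <;> simp [smul_add])
    (fun c b d => by apply ext <;> simp [smul_add])

variable (k) in
/-- the projection to the Beilinson algebra. -/
noncomputable def toB : A k →ₐ[k] B k :=
  AlgHom.ofLinearMap bb rfl (fun _ _ => rfl)

@[simp] lemma toB_apply (a : A k) : toB k a = bb a := rfl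

end A

end Run7.h258.Han
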