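import Mathlib
import Pool.Agent.Run7.h258.Han.Defs
import Pool.Agent.Run7.h817.Han.Cx

/-!
Interface for the counterexample to Han's conjecture (problem MP_92f1cb_al): modules over `A k`,
bimodules, and the statements of the pieces.
-/

set_option autoImplicit false

open Polynomial Run7.h817.Han

open scoped TensorProduct

namespace Run7.h258.Han

variable (k : Type) [Field k]

/-! ### Elements and left ideals of `A` -/

variable {k} in
/-- the elements of `A` from the Beilinson algebra. -/
noncomputable def A.ofB (b : B k) : A k := A.mk b 0 (zero_mem _)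

/-- the idempotent `e_j`. -/
noncomputable def ee (j : Fin 3) : A k := A.ofB (B.mk (Pi.single j 1) 0 0 0)

variable {k} in
/-- the element of `e_0 A e_1` given by a linear form. -/
noncomputable def h01 (s : Fin 3 → k) : A k := A.ofB (B.mk 0 s 0 0)

variable {k} in
/-- the element of `e_1 A e_2` given by a linear form. -/
noncomputable def h12 (s : Fin 3 → k) : A k := A.ofB (B.mk 0 0 s 0)

/-- the left ideal `A e_j`. -/
noncomputable def PP (j : Fin 3) : Submodule (A k) (A k) where
  carrier := {a | a * ee k j = a}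
  add_mem' := fun {a b} ha hb => by
    change (a + b) * _ = _
    rw [add_mul, ha, hb]
  zero_mem' := zero_mul _
  smul_mem' := fun c a ha => by
    change (c * a) * _ = c * a
    rw [mul_assoc, ha]

/-! ### The modules `Z_p` -/

variable {k} in
/-- `Z_p`: the space `k ^ 3`, with `A` acting through evaluation at the vector `p`. -/
def Zp (_p : Fin 3 → k) : Type := Fin 3 → k

namespace Zp

variable {k} (p : Fin 3 → k)

instance : AddCommGroup (Zp p) := inferInstanceAs (AddCommGroup (Fin 3 → k))
instance : Module k (Zp p) := inferInstanceAs (Module k (Fin 3 → k))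
instance : Module.Finite k (Zp p) := inferInstanceAs (Module.Finite k (Fin 3 → k))

/-- the vector with given coordinates. -/
def mk (z : Fin 3 → k) : Zp p := z

/-- the coordinates. -/
def co : Zp p →ₗ[k] (Fin 3 → k) := LinearMap.id

variable {p}

lemma ext {z w : Zp p} (h : co p z = co p w) : z = w := h

@[simp] lemma co_mk (z : Fin 3 → k) : co p (mk p z) = z := rfl

noncomputable instance : Module (A k) (Zp p) where
  smul a z := mk p ((rho k p (A.bb a)).mulVec (co p z))
  one_smul z := by
    change (rho k p (A.bb 1)).mulVec (co p z) = _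
    simp
    rfl
  mul_smul a b z := by
    change (rho k p (A.bb (a * b))).mulVec (co p z) =
      (rho k p (A.bb a)).mulVec ((rho k p (A.bb b)).mulVec (co p z))
    simp
  smul_zero a := by
    change (rho k p (A.bb a)).mulVec 0 = 0
    simp
  smul_add a z w := by
    change (rho k p (A.bb a)).mulVec (co p z + co p w) = (rho k p (A.bb a)).mulVec (co p z) +
      (rho k p (A.bb a)).mulVec (co p w)
    rw [Matrix.mulVec_add]
  add_smul a b z := by
    change (rho k p (A.bb (a + b))).mulVec (co p z) = (rho k p (A.bb a)).mulVec (co p z) +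
      (rho k p (A.bb b)).mulVec (co p z)
    rw [map_add, map_add, Matrix.add_mulVec]
  zero_smul z := by
    change (rho k p (A.bb 0)).mulVec (co p z) = 0
    simp

@[simp] lemma co_smul (a : A k) (z : Zp p) :
    co p (a • z) = (rho k p (A.bb a)).mulVec (co p z) := rfl

instance : IsScalarTower k (A k) (Zp p) where
  smul_assoc c a z := by
    apply Zp.ext
    rw [co_smul, map_smul, map_smul, map_smul, co_smul, Matrix.smul_mulVec]

end Zp

/-! ### Bimodules -/

section bimod

variable {k}

/-- a module as a left action. -/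
noncomputable def lact (Z : Type) [AddCommGroup Z] [Module k Z] [Module (A k) Z]
    [IsScalarTower k (A k) Z] : LAct k (A k) Z where
  l := (Algebra.lsmul k k Z).toLinearMap
  l_mul a b x := by simp

/-- the right module `k ^ 3`, through evaluation at `q`. -/
noncomputable def ract (q : Fin 3 → k) : RAct k (A k) (Fin 3 → k) where
  r := LinearMap.mk₂ k (fun a y => Matrix.vecMul y (rho k q (A.bb a)))
    (fun a b y => by rw [map_add, map_add, Matrix.vecMul_add])
    (fun c a y => by rw [map_smul, map_smul, Matrix.vecMul_smul])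
    (fun a y z => by rw [Matrix.add_vecMul])
    (fun c a y => by rw [Matrix.smul_vecMul])
  r_mul a b x := by simp

/-- the bimodule `X(p,q)`: left action through `p`, right action through `q`. -/
noncomputable def XX (p q : Fin 3 → k) : BiAct k (A k) (Zp p ⊗[k] (Fin 3 → k)) :=
  ten (lact (Zp p)) (ract q)

/-- matrices over a commutative `k`-algebra `R`, with left action through evaluation at `v` and
right action through evaluation at `v'`. -/
noncomputable def matAct {R : Type} [CommRing R] [Algebra k R] (v v' : Fin 3 → R) :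
    BiAct k (A k) (Matrix (Fin 3) (Fin 3) R) where
  l := LinearMap.mk₂ k (fun a m => rho k v (A.bb a) * m)
    (fun a b m => by rw [map_add, map_add, add_mul])
    (fun c a m => by rw [map_smul, map_smul, smul_mul_assoc])
    (fun a m m' => by rw [mul_add])
    (fun c a m => by rw [mul_smul_comm])
  r := LinearMap.mk₂ k (fun a m => m * rho k v' (A.bb a))
    (fun a b m => by rw [map_add, map_add, mul_add])
    (fun c a m => by rw [map_smul, map_smul, mul_smul_comm])
    (fun a m m' => by rw [add_mul])
    (fun c a m => by rw [smul_mul_assoc])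
  l_mul a b m := by simp [mul_assoc]
  r_mul a b m := by simp [mul_assoc]
  comm a b m := by simp [mul_assoc]

@[simp] lemma matAct_l {R : Type} [CommRing R] [Algebra k R] (v v' : Fin 3 → R) (a : A k)
    (m : Matrix (Fin 3) (Fin 3) R) : (matAct v v').l a m = rho k v (A.bb a) * m := rfl

@[simp] lemma matAct_r {R : Type} [CommRing R] [Algebra k R] (v v' : Fin 3 → R) (a : A k)
    (m : Matrix (Fin 3) (Fin 3) R) : (matAct v v').r a m = m * rho k v' (A.bb a) := rfl

variable (k) in
/-- the bimodules `M^(N)`, with union all matrices over `O`; `M^(0) = M`. -/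
noncomputable def mnAct (N : ℕ) : BiAct k (A k) (MN k N) where
  l := LinearMap.mk₂ k (fun a m => ⟨rho k (vx k) (A.bb a) * m.1, rho_mul_mem _ m.2⟩)
    (fun a b m => Subtype.ext (by simp [add_mul]))
    (fun c a m => Subtype.ext (by simp))
    (fun a m m' => Subtype.ext (by simp [mul_add]))
    (fun c a m => Subtype.ext (by simp))
  r := LinearMap.mk₂ k (fun a m => ⟨m.1 * rho k (vx' k) (A.bb a), mul_rho_mem _ m.2⟩)
    (fun a b m => Subtype.ext (by simp [mul_add]))
    (fun c a m => Subtype.ext (by simp))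
    (fun a m m' => Subtype.ext (by simp [add_mul]))
    (fun c a m => Subtype.ext (by simp))
  l_mul a b m := Subtype.ext (by simp [mul_assoc])
  r_mul a b m := Subtype.ext (by simp [mul_assoc])
  comm a b m := Subtype.ext (by simp [mul_assoc])

@[simp] lemma mnAct_l {N : ℕ} (a : A k) (m : MN k N) :
    ((mnAct k N).l a m : Matrix (Fin 3) (Fin 3) (O k)) = rho k (vx k) (A.bb a) * m.1 := rfl

@[simp] lemma mnAct_r {N : ℕ} (a : A k) (m : MN k N) :
    ((mnAct k N).r a m : Matrix (Fin 3) (Fin 3) (O k)) = m.1 * rho k (vx' k) (A.bb a) := rfl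

end bimod

/-! ### The elliptic curve -/

/-- The curve `y ^ 2 = x ^ 3 + x + 1`. -/
def E : WeierstrassCurve.Affine k where
  a₁ := 0
  a₂ := 0
  a₃ := 0
  a₄ := 1
  a₆ := 1

/-- homogeneous coordinates of a point: `(1, x, y)`, and `(0, 0, 1)` for infinity. -/
def vec : (E k).Point → Fin 3 → k
  | 0 => ![0, 0, 1]
  | .some x y _ => ![1, x, y]

/-! ### Statements of the pieces

Throughout `k` is a field of characteristic zero, `P0 = (0, 1)`. -/

/-- the space of `(i,j)` entries of `M`. -/
noncomputable def Ms (i j : Fin 3) : Submodule k (O k) :=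
  L k (3 * (2 - (i : ℕ)) + 1) (3 * (j : ℕ) + 1)

lemma mem_Ms_iff (i j : Fin 3) (f : O k) :
    f ∈ Ms k i j ↔ f ∈ L k (3 * (2 - (i : ℕ)) + 1) (3 * (j : ℕ) + 1) := Iff.rfl

/-- `{a ∈ M_ij : f2 a ∈ f1 M_ij}`, for `f1, f2` given by linear forms `l1, l2`. -/
noncomputable def Z1 (l1 l2 : Fin 3 → k) (i j : Fin 3) : Submodule k (O k) :=
  Ms k i j ⊓ ((Ms k i j).map (LinearMap.mulLeft k (le k l1 (vx' k)))).comap
    (LinearMap.mulLeft k (le k l2 (vx' k)))

lemma mem_Z1_iff (l1 l2 : Fin 3 → k) (i j : Fin 3) (a : O k) : a ∈ Z1 k l1 l2 i j ↔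
    a ∈ Ms k i j ∧ ∃ b ∈ Ms k i j, le k l1 (vx' k) * b = le k l2 (vx' k) * a := Iff.rfl

set_option genInjectivity false in
/-- The data of piece F1, for a point `p` of the curve and `u = p - P0` (as vectors). -/
structure F1D (p u : Fin 3 → k) where
  /-- a linear form vanishing at `p` -/
  l1 : Fin 3 → k
  /-- another linear form vanishing at `p` -/
  l2 : Fin 3 → k
  l1_p : le k l1 p = 0
  l2_p : le k l2 p = 0
  indep : ∀ a b : k, a • l1 + b • l2 = 0 → a = 0 ∧ b = 0
  /-- the functional on `M_i2`, with kernel `f1 M_i1 + f2 M_i1` -/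
  th : ∀ i : Fin 3, Ms k i 2 →ₗ[k] k
  th_surj : ∀ i, Function.Surjective (th i)
  th_ker : ∀ (i : Fin 3) (f : Ms k i 2), th i f = 0 ↔
    ∃ a ∈ Ms k i 1, ∃ b ∈ Ms k i 1, (f : O k) = le k l1 (vx' k) * a + le k l2 (vx' k) * b
  th_act : ∀ (i i' : Fin 3), (i' : ℕ) = i + 1 → ∀ (s : Fin 3 → k) (f : O k) (hf : f ∈ Ms k i' 2)
    (h : le k s (vx k) * f ∈ Ms k i 2),
    th i ⟨le k s (vx k) * f, h⟩ = le k s u * th i' ⟨f, hf⟩
  /-- the functional on `{a ∈ M_i1 : f2 a ∈ f1 M_i1}`, with kernel `f1 M_i0` -/
  ze : ∀ i : Fin 3, Z1 k l1 l2 i 1 →ₗ[k] k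
  ze_surj : ∀ i, Function.Surjective (ze i)
  ze_ker : ∀ (i : Fin 3) (f : Z1 k l1 l2 i 1), ze i f = 0 ↔
    ∃ a ∈ Ms k i 0, (f : O k) = le k l1 (vx' k) * a
  ze_act : ∀ (i i' : Fin 3), (i' : ℕ) = i + 1 → ∀ (s : Fin 3 → k) (f : O k)
    (hf : f ∈ Z1 k l1 l2 i' 1) (h : le k s (vx k) * f ∈ Z1 k l1 l2 i 1),
    ze i ⟨le k s (vx k) * f, h⟩ = le k s u * ze i' ⟨f, hf⟩

end Run7.h258.Han
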