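import Mathlib
import Pool.Agent.Run7.h258.Han.Iface
import Pool.Agent.Run7.h975.Han.Hom2

/-!
From a complex of left modules with its homology to the data of the induction step (piece IND),
after tensoring with a right module.
-/

set_option autoImplicit false

open Run7.h817.Han Run7.h921.Han Run7.h975.Han

open scoped TensorProduct

namespace Run7.h258.Han

variable {k : Type} [Field k]

@[simp] lemma lact_l {Z : Type} [AddCommGroup Z] [Module k Z] [Module (A k) Z]
    [IsScalarTower k (A k) Z] (a : A k) (z : Z) : (lact Z).l a z = a • z := rfl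

section

variable {P Q Y : Type} [AddCommGroup P] [Module k P] [Module (A k) P] [IsScalarTower k (A k) P]
  [AddCommGroup Q] [Module k Q] [Module (A k) Q] [IsScalarTower k (A k) Q]
  [AddCommGroup Y] [Module k Y]

/-- an `A`-linear map tensored with `Y` -/
noncomputable def mt (Y : Type) [AddCommGroup Y] [Module k Y] (f : P →ₗ[A k] Q) :
    P ⊗[k] Y →ₗ[k] Q ⊗[k] Y :=
  (f.restrictScalars k).rTensor Y

@[simp] lemma mt_tmul (f : P →ₗ[A k] Q) (p : P) (y : Y) :
    mt Y f (p ⊗ₜ[k] y) = f p ⊗ₜ[k] y := rfl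

lemma mt_l (f : P →ₗ[A k] Q) (y : RAct k (A k) Y) (a : A k) (x : P ⊗[k] Y) :
    mt Y f ((ten (lact P) y).l a x) = (ten (lact Q) y).l a (mt Y f x) := by
  induction x with
  | zero => simp
  | tmul p c => simp
  | add x x' h h' => rw [map_add, map_add, h, h', map_add, map_add]

lemma mt_r (f : P →ₗ[A k] Q) (y : RAct k (A k) Y) (a : A k) (x : P ⊗[k] Y) :
    mt Y f ((ten (lact P) y).r a x) = (ten (lact Q) y).r a (mt Y f x) := by
  induction x with
  | zero => simp
  | tmul p c => simp
  | add x x' h h' => rw [map_add, map_add, h, h', map_add, map_add]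

end

section

variable {P2 P1 Z' Y : Type} [AddCommGroup P2] [Module k P2] [Module (A k) P2]
  [IsScalarTower k (A k) P2]
  [AddCommGroup P1] [Module k P1] [Module (A k) P1] [IsScalarTower k (A k) P1]
  [AddCommGroup Z'] [Module k Z'] [Module (A k) Z'] [IsScalarTower k (A k) Z']
  [AddCommGroup Y] [Module k Y]

/-- a functional on the kernel of an `A`-linear map, tensored with `Y` -/
lemma exists_pi {P0 : Type} [AddCommGroup P0] [Module k P0] [Module (A k) P0]
    [IsScalarTower k (A k) P0]
    (y : RAct k (A k) Y) (d2 : P2 →ₗ[A k] P1) (d1 : P1 →ₗ[A k] P0)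
    (d12 : ∀ x, d1 (d2 x) = 0)
    (δ : LinearMap.ker d1 →ₗ[A k] Z') (δs : Function.Surjective δ)
    (δk : ∀ x : LinearMap.ker d1, δ x = 0 ↔ ∃ y, d2 y = (x : P1)) :
    ∃ π : LinearMap.ker (mt Y d1) →ₗ[k] Z' ⊗[k] Y, Function.Surjective π ∧
      (∀ x : LinearMap.ker (mt Y d1), π x = 0 ↔ ∃ z, mt Y d2 z = (x : P1 ⊗[k] Y)) ∧
      (∀ a (x x' : LinearMap.ker (mt Y d1)), (x' : P1 ⊗[k] Y) = (ten (lact P1) y).l a x →
        π x' = (ten (lact Z') y).l a (π x)) ∧
      (∀ a (x x' : LinearMap.ker (mt Y d1)), (x' : P1 ⊗[k] Y) = (ten (lact P1) y).r a x →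
        π x' = (ten (lact Z') y).r a (π x)) := by
  -- extend `δ` to a `k`-linear map
  let K : Submodule k P1 := (LinearMap.ker d1).restrictScalars k
  let δk' : K →ₗ[k] Z' := δ.restrictScalars k
  obtain ⟨δ', hδ'⟩ := δk'.exists_extend
  have hδ1 : ∀ x : LinearMap.ker d1, δ' (x : P1) = δ x := fun x => by
    have := LinearMap.congr_fun hδ' x
    exact this
  -- elements of the kernel
  have hex : Function.Exact (LinearMap.ker d1).subtype d1 := by
    intro x
    constructor
    · intro hx
      exact ⟨⟨x, hx⟩, rfl⟩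
    · rintro ⟨w, rfl⟩
      exact w.2
  have hflat : Function.Exact (mt Y (LinearMap.ker d1).subtype) (mt Y d1) :=
    Module.Flat.rTensor_exact (R := k) Y (f := (LinearMap.ker d1).subtype.restrictScalars k)
      (g := d1.restrictScalars k) hex
  have hδm : ∀ w : (LinearMap.ker d1) ⊗[k] Y,
      δ'.rTensor Y (mt Y (LinearMap.ker d1).subtype w) = mt Y δ w := by
    intro w
    induction w with
    | zero => simp
    | tmul p c => simp [hδ1]
    | add x x' h h' => rw [map_add, map_add, h, h', map_add]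
  refine ⟨(δ'.rTensor Y).domRestrict (LinearMap.ker (mt Y d1)), ?_, ?_, ?_, ?_⟩
  · intro z
    obtain ⟨w, hw⟩ := LinearMap.rTensor_surjective Y (g := δ.restrictScalars k) δs z
    refine ⟨⟨mt Y (LinearMap.ker d1).subtype w, ?_⟩, ?_⟩
    · exact (hflat _).mpr ⟨w, rfl⟩
    · exact (hδm w).trans hw
  · rintro ⟨x, hx⟩
    obtain ⟨w, rfl⟩ := (hflat _).mp hx
    change δ'.rTensor Y (mt Y (LinearMap.ker d1).subtype w) = 0 ↔ _
    rw [hδm]
    have hex2 : Function.Exact (d2.codRestrict (LinearMap.ker d1) fun x => d12 x) δ := by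
      intro x
      rw [δk]
      constructor
      · rintro ⟨y, hy⟩
        exact ⟨y, Subtype.ext hy⟩
      · rintro ⟨y, hy⟩
        exact ⟨y, congrArg Subtype.val hy⟩
    have hex3 : Function.Exact (mt Y (d2.codRestrict (LinearMap.ker d1) fun x => d12 x))
        (mt Y δ) :=
      rTensor_exact (R := k) Y
        (f := (d2.codRestrict (LinearMap.ker d1) fun x => d12 x).restrictScalars k)
        (g := δ.restrictScalars k) hex2 δs
    have hcomp : ∀ z, mt Y (LinearMap.ker d1).subtype
        (mt Y (d2.codRestrict (LinearMap.ker d1) fun x => d12 x) z) = mt Y d2 z := by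
      intro z
      induction z with
      | zero => simp
      | tmul p c => simp
      | add x x' h h' => rw [map_add, map_add, h, h', map_add]
    have hinj : Function.Injective (mt Y (LinearMap.ker d1).subtype) :=
      Module.Flat.rTensor_preserves_injective_linearMap (R := k)
        ((LinearMap.ker d1).subtype.restrictScalars k) Subtype.val_injective
    constructor
    · intro h
      obtain ⟨z, hz⟩ := (hex3 w).mp h
      exact ⟨z, by rw [← hcomp, hz]⟩
    · rintro ⟨z, hz⟩
      rw [← hcomp] at hz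
      exact (hex3 w).mpr ⟨z, hinj hz⟩
  · rintro a ⟨x, hx⟩ ⟨x', hx'⟩ h
    obtain ⟨w, rfl⟩ := (hflat _).mp hx
    change x' = (ten (lact P1) y).l a (mt Y (LinearMap.ker d1).subtype w) at h
    subst h
    change δ'.rTensor Y ((ten (lact P1) y).l a (mt Y (LinearMap.ker d1).subtype w)) =
      (ten (lact Z') y).l a (δ'.rTensor Y (mt Y (LinearMap.ker d1).subtype w))
    rw [← mt_l, hδm, hδm, mt_l]
  · rintro a ⟨x, hx⟩ ⟨x', hx'⟩ h
    change x' = (ten (lact P1) y).r a x at h
    subst h
    change δ'.rTensor Y ((ten (lact P1) y).r a x) = (ten (lact Z') y).r a (δ'.rTensor Y x)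
    clear hx hx'
    induction x with
    | zero => simp
    | tmul p c => simp
    | add x x' h h' => rw [map_add, map_add, h, h', map_add, map_add]

end

section

variable {P2 P1 P0 Z Z' Z'' Y : Type}
  [AddCommGroup P2] [Module k P2] [Module (A k) P2] [IsScalarTower k (A k) P2]
  [AddCommGroup P1] [Module k P1] [Module (A k) P1] [IsScalarTower k (A k) P1]
  [AddCommGroup P0] [Module k P0] [Module (A k) P0] [IsScalarTower k (A k) P0]
  [AddCommGroup Z] [Module k Z] [Module (A k) Z] [IsScalarTower k (A k) Z]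
  [AddCommGroup Z'] [Module k Z'] [Module (A k) Z'] [IsScalarTower k (A k) Z']
  [AddCommGroup Z''] [Module k Z''] [Module (A k) Z''] [IsScalarTower k (A k) Z'']
  [AddCommGroup Y] [Module k Y]

theorem step_ten (y : RAct k (A k) Y) (d2 : P2 →ₗ[A k] P1) (d1 : P1 →ₗ[A k] P0)
    (e : P0 →ₗ[A k] Z) (δ : LinearMap.ker d1 →ₗ[A k] Z') (γ : LinearMap.ker e →ₗ[A k] Z'')
    (hv2 : ∀ n, Hv (n + 1) (ten (lact P2) y))
    (hv1 : ∀ n, Hv (n + 1) (ten (lact P1) y))
    (hv0 : ∀ n, Hv (n + 1) (ten (lact P0) y))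
    (inj : Function.Injective d2) (d12 : ∀ x, d1 (d2 x) = 0) (ed : ∀ x, e (d1 x) = 0)
    (es : Function.Surjective e) (δs : Function.Surjective δ) (γs : Function.Surjective γ)
    (δk : ∀ x : LinearMap.ker d1, δ x = 0 ↔ ∃ y, d2 y = (x : P1))
    (γk : ∀ x : LinearMap.ker e, γ x = 0 ↔ ∃ y, d1 y = (x : P0))
    (E2 : ∀ z, mt Y d2 z ∈ LinearMap.range (d0 (ten (lact P1) y)) →
      z ∈ LinearMap.range (d0 (ten (lact P2) y)))
    (E1 : ∀ z, mt Y d1 z ∈ LinearMap.range (d0 (ten (lact P0) y)) →
      ∃ x, z - mt Y d2 x ∈ LinearMap.range (d0 (ten (lact P1) y)))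
    (E0 : ∀ x, ∃ z, x - mt Y d1 z ∈ LinearMap.range (d0 (ten (lact P0) y))) :
    ∃ π σ, Step (ten (lact P2) y) (ten (lact P1) y) (ten (lact P0) y) (ten (lact Z) y)
      (ten (lact Z') y) (ten (lact Z'') y) (mt Y d2) (mt Y d1) (mt Y e) π σ := by
  obtain ⟨π, h1, h2, h3, h4⟩ := exists_pi y d2 d1 d12 δ δs δk
  obtain ⟨σ, g1, g2, g3, g4⟩ := exists_pi y d1 e ed γ γs γk
  refine ⟨π, σ, ?_⟩
  exact
    { hv2 := hv2, hv1 := hv1, hv0 := hv0
      inj := Module.Flat.rTensor_preserves_injective_linearMap (R := k)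
        (d2.restrictScalars k) inj
      d12 := fun x => by
        induction x with
        | zero => simp
        | tmul p c => simp [d12]
        | add x x' h h' => rw [map_add, map_add, h, h', add_zero]
      ρd := fun x => by
        induction x with
        | zero => simp
        | tmul p c => simp [ed]
        | add x x' h h' => rw [map_add, map_add, h, h', add_zero]
      ρsurj := LinearMap.rTensor_surjective Y (g := e.restrictScalars k) es
      πsurj := h1, σsurj := g1, πker := h2, σker := g2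
      d2l := fun a x => mt_l d2 y a x, d2r := fun a x => mt_r d2 y a x
      d1l := fun a x => mt_l d1 y a x, d1r := fun a x => mt_r d1 y a x
      ρl := fun a x => mt_l e y a x, ρr := fun a x => mt_r e y a x
      πl := h3, πr := h4, σl := g3, σr := g4
      E2 := E2, E1 := E1, E0 := E0 }

end

end Run7.h258.Han
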