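import Mathlib
import Pool.Agent.Run7.h258.Han.StepTen

/-!
The Koszul complex `A e_0 → (A e_1)^2 → A e_2` of a point, and `h_0` of it tensored with `ract q`.
-/

set_option autoImplicit false

open Run7.h817.Han Run7.h921.Han Run7.h975.Han

open scoped TensorProduct

namespace Run7.h258.Han

variable {k : Type} [Field k]

lemma mem_PP_iff {j : Fin 3} {a : A k} : a ∈ PP k j ↔ a * ee k j = a := Iff.rfl

lemma ee_mul_ee (j : Fin 3) : ee k j * ee k j = ee k j := by
  apply A.ext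
  · apply B.ext
    · simp [ee, A.ofB, ← Pi.single_mul]
    · simp [ee, A.ofB]
    · simp [ee, A.ofB]
    · simp [ee, A.ofB, B.sm_zero_left]
  · simp [ee, A.ofB]

lemma ee_mem (j : Fin 3) : ee k j ∈ PP k j := ee_mul_ee j

lemma h01_mul (s : Fin 3 → k) : h01 s * ee k 1 = h01 s := by
  apply A.ext
  · apply B.ext
    · simp [h01, ee, A.ofB]
    · simp [h01, ee, A.ofB]
    · simp [h01, ee, A.ofB]
    · simp [h01, ee, A.ofB, B.sm_zero_right]
  · simp [h01, ee, A.ofB]

lemma h12_mul (s : Fin 3 → k) : h12 s * ee k 2 = h12 s := by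
  apply A.ext
  · apply B.ext
    · simp [h12, ee, A.ofB]
    · simp [h12, ee, A.ofB]
    · simp [h12, ee, A.ofB]
    · simp [h12, ee, A.ofB, B.sm_zero_right]
  · simp [h12, ee, A.ofB]

/-- right multiplication by `c ∈ A e_j`, from `A e_i` to `A e_j`. -/
noncomputable def rmul {i j : Fin 3} (c : A k) (hc : c * ee k j = c) :
    PP k i →ₗ[A k] PP k j where
  toFun x := ⟨x.1 * c, by rw [mem_PP_iff, mul_assoc, hc]⟩
  map_add' x y := Subtype.ext (add_mul _ _ _)
  map_smul' a x := Subtype.ext (mul_assoc a x.1 c)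

@[simp] lemma coe_rmul {i j : Fin 3} (c : A k) (hc : c * ee k j = c) (x : PP k i) :
    ((rmul c hc x : PP k j) : A k) = x.1 * c := rfl

/-- `A e_0 → (A e_1)^2`, `t ↦ (t l2, - t l1)`. -/
noncomputable def kd2 (l1 l2 : Fin 3 → k) : PP k 0 →ₗ[A k] PP k 1 × PP k 1 :=
  (rmul (h01 l2) (h01_mul l2)).prod (-(rmul (h01 l1) (h01_mul l1)))

/-- `(A e_1)^2 → A e_2`, `(s, t) ↦ s l1 + t l2`. -/
noncomputable def kd1 (l1 l2 : Fin 3 → k) : PP k 1 × PP k 1 →ₗ[A k] PP k 2 :=
  (rmul (h12 l1) (h12_mul l1)).coprod (rmul (h12 l2) (h12_mul l2))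

@[simp] lemma kd2_fst (l1 l2 : Fin 3 → k) (t : PP k 0) :
    (((kd2 l1 l2 t).1 : PP k 1) : A k) = t.1 * h01 l2 := rfl
@[simp] lemma kd2_snd (l1 l2 : Fin 3 → k) (t : PP k 0) :
    (((kd2 l1 l2 t).2 : PP k 1) : A k) = -(t.1 * h01 l1) := rfl
@[simp] lemma kd1_coe (l1 l2 : Fin 3 → k) (t : PP k 1 × PP k 1) :
    ((kd1 l1 l2 t : PP k 2) : A k) = t.1.1 * h12 l1 + t.2.1 * h12 l2 := rfl

/-! ### Principal modules -/

variable {Y : Type} [AddCommGroup Y] [Module k Y]

/-- the inclusion of `A e_j`, `k`-linear. -/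
noncomputable def sPP (j : Fin 3) : PP k j →ₗ[k] A k := (PP k j).subtype.restrictScalars k

@[simp] lemma sPP_apply (j : Fin 3) (x : PP k j) : sPP j x = x.1 := rfl

lemma sPP_l (j : Fin 3) (a : A k) (x : PP k j) : sPP j ((lact (PP k j)).l a x) = a * sPP j x := rfl

/-- the generator of `A e_j`. -/
noncomputable def ePP (j : Fin 3) : PP k j := ⟨ee k j, ee_mem j⟩

@[simp] lemma coe_ePP (j : Fin 3) : ((ePP j : PP k j) : A k) = ee k j := rfl

lemma sPP_e (j : Fin 3) (x : PP k j) :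
    (lact (PP k j)).l (sPP j x) (ePP j) = x := Subtype.ext x.2

lemma hv_PP (j : Fin 3) (y : RAct k (A k) Y) (n : ℕ) : Hv (n + 1) (ten (lact (PP k j)) y) :=
  Hv_ten n _ _ ⟨ePP j, sPP j, sPP_l j, sPP_e j⟩

lemma range_PP (j : Fin 3) (y : RAct k (A k) Y) (z : PP k j ⊗[k] Y) :
    z ∈ LinearMap.range (d0 (ten (lact (PP k j)) y)) ↔ phi0 y (sPP j) z = 0 := by
  have h := range_d0_ten (lact (PP k j)) y (ePP j) (sPP j) (sPP_l j) (sPP_e j) z
  exact h

section prod

variable {X X' : Type} [AddCommGroup X] [Module k X] [Module (A k) X] [IsScalarTower k (A k) X]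
  [AddCommGroup X'] [Module k X'] [Module (A k) X'] [IsScalarTower k (A k) X']

lemma ses_prod (y : RAct k (A k) Y) : SES (ten (lact X) y) (ten (lact (X × X')) y)
    (ten (lact X') y) (mt Y (LinearMap.inl (A k) X X')) (mt Y (LinearMap.snd (A k) X X')) where
  inj := Module.Flat.rTensor_preserves_injective_linearMap (R := k)
    ((LinearMap.inl (A k) X X').restrictScalars k) LinearMap.inl_injective
  surj := LinearMap.rTensor_surjective Y (g := (LinearMap.snd (A k) X X').restrictScalars k)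
    LinearMap.snd_surjective
  exact := Module.Flat.rTensor_exact (R := k) Y
    (f := (LinearMap.inl (A k) X X').restrictScalars k)
    (g := (LinearMap.snd (A k) X X').restrictScalars k) (by
      intro x
      constructor
      · intro h
        exact ⟨x.1, Prod.ext rfl h.symm⟩
      · rintro ⟨y, rfl⟩
        rfl)
  i_l := fun a x => mt_l _ y a x
  i_r := fun a x => mt_r _ y a x
  p_l := fun a x => mt_l _ y a x
  p_r := fun a x => mt_r _ y a x

lemma hv_prod (y : RAct k (A k) Y) (n : ℕ) (h : Hv n (ten (lact X) y))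
    (h' : Hv n (ten (lact X') y)) : Hv n (ten (lact (X × X')) y) :=
  L1 n (ses_prod y) h h'

lemma range_prod (y : RAct k (A k) Y) (z : (X × X') ⊗[k] Y) :
    z ∈ LinearMap.range (d0 (ten (lact (X × X')) y)) ↔
      mt Y (LinearMap.fst (A k) X X') z ∈ LinearMap.range (d0 (ten (lact X) y)) ∧
      mt Y (LinearMap.snd (A k) X X') z ∈ LinearMap.range (d0 (ten (lact X') y)) := by
  constructor
  · intro h
    exact ⟨map_range (fun a x => mt_l _ y a x) (fun a x => mt_r _ y a x) h,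
      map_range (fun a x => mt_l _ y a x) (fun a x => mt_r _ y a x) h⟩
  · rintro ⟨h, h'⟩
    have h1 := map_range (u := mt Y (LinearMap.inl (A k) X X')) (fun a x => mt_l _ y a x)
      (fun a x => mt_r _ y a x) h
    have h2 := map_range (u := mt Y (LinearMap.inr (A k) X X')) (fun a x => mt_l _ y a x)
      (fun a x => mt_r _ y a x) h'
    have h3 : z = mt Y (LinearMap.inl (A k) X X') (mt Y (LinearMap.fst (A k) X X') z) +
        mt Y (LinearMap.inr (A k) X X') (mt Y (LinearMap.snd (A k) X X') z) := by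
      clear h h' h1 h2
      induction z with
      | zero => simp
      | tmul p c =>
        simp only [mt_tmul]
        rw [← TensorProduct.add_tmul]
        simp
      | add x x' h h' =>
        rw [map_add, map_add, map_add, map_add]
        nth_rw 1 [h]
        nth_rw 1 [h']
        abel
    rw [h3]
    exact add_mem h1 h2

end prod

/-! ### `h_0` of the Koszul complex -/

section hzero

variable (q : Fin 3 → k)

@[simp] lemma ract_r (a : A k) (y : Fin 3 → k) :
    (ract q).r a y = Matrix.vecMul y (rho k q (A.bb a)) := rfl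

lemma ract_ee (j : Fin 3) (y : Fin 3 → k) : (ract q).r (ee k j) y = Pi.single j (y j) := by
  ext i
  fin_cases j <;> fin_cases i <;>
    simp [ee, A.ofB, rho_apply, Matrix.vecMul, dotProduct, Fin.sum_univ_three, le, qe]

lemma ract_h01 (s : Fin 3 → k) (y : Fin 3 → k) :
    (ract q).r (h01 s) y = Pi.single 1 (y 0 * le k s q) := by
  ext i
  fin_cases i <;>
    simp [h01, A.ofB, rho_apply, Matrix.vecMul, dotProduct, Fin.sum_univ_three, le, qe]

lemma ract_h12 (s : Fin 3 → k) (y : Fin 3 → k) :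
    (ract q).r (h12 s) y = Pi.single 2 (y 1 * le k s q) := by
  ext i
  fin_cases i <;>
    simp [h12, A.ofB, rho_apply, Matrix.vecMul, dotProduct, Fin.sum_univ_three, le, qe]

lemma phi0_PP (j : Fin 3) (z : PP k j ⊗[k] (Fin 3 → k)) :
    phi0 (ract q) (sPP j) z = Pi.single j (phi0 (ract q) (sPP j) z j) := by
  rw [← ract_ee q]
  induction z with
  | zero => simp
  | tmul x c =>
    rw [phi0_tmul, ← (ract q).r_mul, sPP_apply]
    rw [mem_PP_iff.mp x.2]
  | add x x' h h' =>
    nth_rw 1 [map_add]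
    rw [h, h', map_add, map_add]

lemma phi0_rmul {i j : Fin 3} (c : A k) (hc : c * ee k j = c) (z : PP k i ⊗[k] (Fin 3 → k)) :
    phi0 (ract q) (sPP j) (mt (Fin 3 → k) (rmul c hc) z) =
      (ract q).r c (phi0 (ract q) (sPP i) z) := by
  induction z with
  | zero => simp
  | tmul x y =>
    rw [mt_tmul, phi0_tmul, phi0_tmul, sPP_apply, coe_rmul, (ract q).r_mul, sPP_apply]
  | add x x' h h' =>
    rw [map_add, map_add, map_add, map_add, h, h']

lemma mt_comp {P Q R : Type} [AddCommGroup P] [Module k P] [Module (A k) P]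
    [IsScalarTower k (A k) P] [AddCommGroup Q] [Module k Q] [Module (A k) Q]
    [IsScalarTower k (A k) Q] [AddCommGroup R] [Module k R] [Module (A k) R]
    [IsScalarTower k (A k) R] (g : Q →ₗ[A k] R) (f : P →ₗ[A k] Q) (z : P ⊗[k] Y) :
    mt Y g (mt Y f z) = mt Y (g.comp f) z := by
  induction z with
  | zero => simp
  | tmul x y => simp
  | add x x' h h' => rw [map_add, map_add, map_add, h, h']

lemma mt_add {P Q : Type} [AddCommGroup P] [Module k P] [Module (A k) P]
    [IsScalarTower k (A k) P] [AddCommGroup Q] [Module k Q] [Module (A k) Q]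
    [IsScalarTower k (A k) Q] (g f : P →ₗ[A k] Q) (z : P ⊗[k] Y) :
    mt Y (g + f) z = mt Y g z + mt Y f z := by
  induction z with
  | zero => simp
  | tmul x y => simp [TensorProduct.add_tmul]
  | add x x' h h' => rw [map_add, map_add, map_add, h, h']; abel

lemma mt_neg {P Q : Type} [AddCommGroup P] [Module k P] [Module (A k) P]
    [IsScalarTower k (A k) P] [AddCommGroup Q] [Module k Q] [Module (A k) Q]
    [IsScalarTower k (A k) Q] (f : P →ₗ[A k] Q) (z : P ⊗[k] Y) :
    mt Y (-f) z = - mt Y f z := by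
  induction z with
  | zero => simp
  | tmul x y => simp [TensorProduct.neg_tmul]
  | add x x' h h' => rw [map_add, map_add, h, h']; abel

variable {q} {l1 l2 : Fin 3 → k}

lemma koszul_E2 (hq : le k l1 q ≠ 0 ∨ le k l2 q ≠ 0) (z : PP k 0 ⊗[k] (Fin 3 → k))
    (h : mt (Fin 3 → k) (kd2 l1 l2) z ∈
      LinearMap.range (d0 (ten (lact (PP k 1 × PP k 1)) (ract q)))) :
    z ∈ LinearMap.range (d0 (ten (lact (PP k 0)) (ract q))) := by
  rw [range_prod, range_PP, range_PP, mt_comp, mt_comp] at h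
  have e1 : (LinearMap.fst (A k) (PP k 1) (PP k 1)).comp (kd2 l1 l2) =
      rmul (h01 l2) (h01_mul l2) := rfl
  have e2 : (LinearMap.snd (A k) (PP k 1) (PP k 1)).comp (kd2 l1 l2) =
      -(rmul (h01 l1) (h01_mul l1)) := rfl
  rw [e1, e2, mt_neg, map_neg, phi0_rmul, phi0_rmul, ract_h01, ract_h01, neg_eq_zero] at h
  rw [range_PP, phi0_PP]
  have h1 := congrFun h.1 1
  have h2 := congrFun h.2 1
  simp only [Pi.single_eq_same, Pi.zero_apply, mul_eq_zero] at h1 h2
  have h3 : phi0 (ract q) (sPP 0) z 0 = 0 := by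
    rcases hq with hq | hq
    · exact h2.resolve_right hq
    · exact h1.resolve_right hq
  rw [h3, Pi.single_zero]

lemma phi0_kd1 (z : (PP k 1 × PP k 1) ⊗[k] (Fin 3 → k)) :
    phi0 (ract q) (sPP 2) (mt (Fin 3 → k) (kd1 l1 l2) z) =
      Pi.single 2 (phi0 (ract q) (sPP 1) (mt (Fin 3 → k) (LinearMap.fst (A k) _ _) z) 1 *
        le k l1 q + phi0 (ract q) (sPP 1) (mt (Fin 3 → k) (LinearMap.snd (A k) _ _) z) 1 *
        le k l2 q) := by
  have e1 : kd1 l1 l2 = (rmul (h12 l1) (h12_mul l1)).comp (LinearMap.fst (A k) (PP k 1) (PP k 1)) +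
      (rmul (h12 l2) (h12_mul l2)).comp (LinearMap.snd (A k) (PP k 1) (PP k 1)) := rfl
  rw [e1, mt_add, ← mt_comp, ← mt_comp, map_add, phi0_rmul, phi0_rmul, ract_h12, ract_h12,
    ← Pi.single_add]

lemma koszul_E1 (hq : le k l1 q ≠ 0 ∨ le k l2 q ≠ 0)
    (z : (PP k 1 × PP k 1) ⊗[k] (Fin 3 → k))
    (h : mt (Fin 3 → k) (kd1 l1 l2) z ∈ LinearMap.range (d0 (ten (lact (PP k 2)) (ract q)))) :
    ∃ x, z - mt (Fin 3 → k) (kd2 l1 l2) x ∈
      LinearMap.range (d0 (ten (lact (PP k 1 × PP k 1)) (ract q))) := by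
  rw [range_PP, phi0_kd1] at h
  have h1 := congrFun h 2
  simp only [Pi.single_eq_same, Pi.zero_apply] at h1
  set a := phi0 (ract q) (sPP 1) (mt (Fin 3 → k) (LinearMap.fst (A k) _ _) z) 1 with ha
  set b := phi0 (ract q) (sPP 1) (mt (Fin 3 → k) (LinearMap.snd (A k) _ _) z) 1 with hb
  obtain ⟨c, hc1, hc2⟩ : ∃ c, a = c * le k l2 q ∧ b = -(c * le k l1 q) := by
    by_cases h2 : le k l2 q = 0
    · rw [h2, mul_zero, add_zero] at h1
      have h3 : le k l1 q ≠ 0 := hq.resolve_right (fun h => h h2)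
      refine ⟨- b / le k l1 q, ?_, ?_⟩
      · rw [h2, mul_zero]
        exact (mul_eq_zero.mp h1).resolve_right h3
      · field_simp
    · refine ⟨a / le k l2 q, by field_simp, ?_⟩
      field_simp
      linear_combination h1
  refine ⟨(ePP 0 : PP k 0) ⊗ₜ[k] Pi.single 0 c, ?_⟩
  have e1 : (LinearMap.fst (A k) (PP k 1) (PP k 1)).comp (kd2 l1 l2) =
      rmul (h01 l2) (h01_mul l2) := rfl
  have e2 : (LinearMap.snd (A k) (PP k 1) (PP k 1)).comp (kd2 l1 l2) =
      -(rmul (h01 l1) (h01_mul l1)) := rfl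
  have e3 : phi0 (ract q) (sPP 0) ((ePP 0 : PP k 0) ⊗ₜ[k] Pi.single 0 c) =
      Pi.single 0 c := by
    rw [phi0_tmul, sPP_apply, coe_ePP, ract_ee, Pi.single_eq_same]
  have e4 := phi0_PP q 1 (mt (Fin 3 → k) (LinearMap.fst (A k) _ _) z)
  have e5 := phi0_PP q 1 (mt (Fin 3 → k) (LinearMap.snd (A k) _ _) z)
  rw [← ha] at e4
  rw [← hb] at e5
  rw [range_prod, range_PP, range_PP, map_sub, map_sub, map_sub, map_sub, mt_comp, mt_comp, e1, e2,
    mt_neg, map_neg, phi0_rmul, phi0_rmul, e3, ract_h01, ract_h01, e4, e5,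
    hc1, hc2]
  refine ⟨by simp, ?_⟩
  rw [sub_neg_eq_add, Pi.single_eq_same, ← Pi.single_add, neg_add_cancel, Pi.single_zero]

lemma koszul_E0 (hq : le k l1 q ≠ 0 ∨ le k l2 q ≠ 0) (x : PP k 2 ⊗[k] (Fin 3 → k)) :
    ∃ z, x - mt (Fin 3 → k) (kd1 l1 l2) z ∈
      LinearMap.range (d0 (ten (lact (PP k 2)) (ract q))) := by
  set c := phi0 (ract q) (sPP 2) x 2 with hc
  obtain ⟨a, b, hab⟩ : ∃ a b, a * le k l1 q + b * le k l2 q = c := by
    rcases hq with hq | hq
    · exact ⟨c / le k l1 q, 0, by field_simp; ring⟩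
    · exact ⟨0, c / le k l2 q, by field_simp; ring⟩
  refine ⟨((ePP 1 : PP k 1), (0 : PP k 1)) ⊗ₜ[k] Pi.single 1 a +
    ((0 : PP k 1), (ePP 1 : PP k 1)) ⊗ₜ[k] Pi.single 1 b, ?_⟩
  rw [range_PP, map_sub, phi0_kd1, phi0_PP, ← hc]
  simp only [map_add, mt_tmul, phi0_tmul, sPP_apply, LinearMap.fst_apply, LinearMap.snd_apply,
    coe_ePP, ract_ee, Pi.single_eq_same, map_zero, LinearMap.zero_apply, add_zero,
    zero_add]
  rw [hab, sub_self]

end hzero

end Run7.h258.Han
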