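import Mathlib
import Pool.Agent.Run7.h258.Han.HZero

/-!
The one-sided data of the Koszul complex of a point: its homology is `Z_u` in degree one, and
`H_0` is an extension of `Z_p` by `Z_u`.
-/

set_option autoImplicit false

open Run7.h817.Han Run7.h921.Han Run7.h975.Han

open scoped TensorProduct

namespace Run7.h258.Han

variable {k : Type} [Field k]

set_option genInjectivity false in
/-- The homology of the Koszul complex of `p`. -/
structure KDat (p u l1 l2 : Fin 3 → k) where
  inj : Function.Injective (kd2 l1 l2)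
  d12 : ∀ x, kd1 l1 l2 (kd2 l1 l2 x) = 0
  /-- the evaluation at `p` -/
  e : PP k 2 →ₗ[A k] Zp p
  es : Function.Surjective e
  ed : ∀ x, e (kd1 l1 l2 x) = 0
  /-- the homology in degree one -/
  δ : LinearMap.ker (kd1 l1 l2) →ₗ[A k] Zp u
  δs : Function.Surjective δ
  δk : ∀ x : LinearMap.ker (kd1 l1 l2), δ x = 0 ↔ ∃ y, kd2 l1 l2 y = x
  /-- the kernel of the evaluation, modulo the image of `kd1` -/
  γ : LinearMap.ker e →ₗ[A k] Zp u
  γs : Function.Surjective γ
  γk : ∀ x : LinearMap.ker e, γ x = 0 ↔ ∃ y, kd1 l1 l2 y = x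

/-- Two vectors orthogonal to two independent forms are proportional. -/
lemma exists_smul_of_le {l1 l2 p q : Fin 3 → k} (hp : p ≠ 0)
    (hind : ∀ a b : k, a • l1 + b • l2 = 0 → a = 0 ∧ b = 0)
    (h1 : le k l1 p = 0) (h2 : le k l2 p = 0) (h3 : le k l1 q = 0) (h4 : le k l2 q = 0) :
    ∃ c : k, ∀ i, q i = c * p i := by
  simp only [le, smul_eq_mul] at h1 h2 h3 h4
  -- the cross product of `l1` and `l2`
  set w0 := l1 1 * l2 2 - l1 2 * l2 1 with hw0
  set w1 := l1 2 * l2 0 - l1 0 * l2 2 with hw1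
  set w2 := l1 0 * l2 1 - l1 1 * l2 0 with hw2
  have hw : w0 ≠ 0 ∨ w1 ≠ 0 ∨ w2 ≠ 0 := by
    by_contra hcon
    push Not at hcon
    obtain ⟨e0, e1, e2⟩ := hcon
    rw [hw0] at e0
    rw [hw1] at e1
    rw [hw2] at e2
    have hl1 : l1 = 0 := by
      funext i
      have key : ∀ j, (l1 j) • l2 + (-(l2 j)) • l1 = 0 := by
        intro j
        funext m
        simp only [Pi.add_apply, Pi.smul_apply, smul_eq_mul, Pi.zero_apply]
        fin_cases j <;> fin_cases m <;> simp only [Fin.zero_eta, Fin.mk_one, Fin.reduceFinMk] <;>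
          first | ring1 | linear_combination e0 | linear_combination e1 | linear_combination e2 |
            linear_combination -e0 | linear_combination -e1 | linear_combination -e2
      have h5 := hind (-(l2 i)) (l1 i) (by rw [add_comm]; exact key i)
      exact h5.2
    have := hind 1 0 (by rw [hl1]; simp)
    exact one_ne_zero this.1
  have par : ∀ v : Fin 3 → k, l1 0 * v 0 + l1 1 * v 1 + l1 2 * v 2 = 0 →
      l2 0 * v 0 + l2 1 * v 1 + l2 2 * v 2 = 0 → ∃ a, v 0 = a * w0 ∧ v 1 = a * w1 ∧ v 2 = a * w2 := by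
    intro v g1 g2
    rcases hw with h | h | h
    · refine ⟨v 0 / w0, by field_simp, ?_, ?_⟩
      · field_simp
        simp only [hw0, hw1]
        first | linear_combination (-(l2 2)) * g1 + l1 2 * g2 | linear_combination -((-(l2 2)) * g1 + l1 2 * g2)
      · field_simp
        simp only [hw0, hw2]
        first | linear_combination (l2 1) * g1 - l1 1 * g2 | linear_combination -((l2 1) * g1 - l1 1 * g2)
    · refine ⟨v 1 / w1, ?_, by field_simp, ?_⟩
      · field_simp
        simp only [hw0, hw1]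
        first | linear_combination (l2 2) * g1 - l1 2 * g2 | linear_combination -((l2 2) * g1 - l1 2 * g2)
      · field_simp
        simp only [hw1, hw2]
        first | linear_combination (-(l2 0)) * g1 + l1 0 * g2 | linear_combination -((-(l2 0)) * g1 + l1 0 * g2)
    · refine ⟨v 2 / w2, ?_, ?_, by field_simp⟩
      · field_simp
        simp only [hw0, hw2]
        first | linear_combination (-(l2 1)) * g1 + l1 1 * g2 | linear_combination -((-(l2 1)) * g1 + l1 1 * g2)
      · field_simp
        simp only [hw1, hw2]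
        first | linear_combination (l2 0) * g1 - l1 0 * g2 | linear_combination -((l2 0) * g1 - l1 0 * g2)
  obtain ⟨a, ha0, ha1, ha2⟩ := par p h1 h2
  obtain ⟨b, hb0, hb1, hb2⟩ := par q h3 h4
  have ha : a ≠ 0 := by
    rintro rfl
    apply hp
    funext i
    fin_cases i
    · simpa using ha0
    · simpa using ha1
    · simpa using ha2
  refine ⟨b / a, fun i => ?_⟩
  fin_cases i
  · simp only [Fin.zero_eta]
    rw [ha0, hb0]; field_simp
  · simp only [Fin.mk_one]
    rw [ha1, hb1]; field_simp
  · simp only [Fin.reduceFinMk]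
    rw [ha2, hb2]; field_simp

/-- The data of the induction step for the bimodules `X(p,q)`. -/
theorem step_XX {p u q l1 l2 : Fin 3 → k} (K : KDat p u l1 l2)
    (hq : le k l1 q ≠ 0 ∨ le k l2 q ≠ 0) :
    ∃ π σ, Step (ten (lact (PP k 0)) (ract q)) (ten (lact (PP k 1 × PP k 1)) (ract q))
      (ten (lact (PP k 2)) (ract q)) (XX p q) (XX u q) (XX u q)
      (mt (Fin 3 → k) (kd2 l1 l2)) (mt (Fin 3 → k) (kd1 l1 l2)) (mt (Fin 3 → k) K.e) π σ :=
  step_ten (ract q) (kd2 l1 l2) (kd1 l1 l2) K.e K.δ K.γ (fun n => hv_PP 0 _ n)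
    (fun n => hv_prod _ _ (hv_PP 1 _ n) (hv_PP 1 _ n)) (fun n => hv_PP 2 _ n) K.inj K.d12 K.ed
    K.es K.δs K.γs K.δk K.γk (koszul_E2 hq) (koszul_E1 hq) (koszul_E0 hq)

end Run7.h258.Han
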