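import Mathlib
import Pool.Agent.Run7.h258.Han.Iface

/-!
Facts on the ring `O k`: the map from `W k` is injective, `O k` is a domain.
-/

set_option autoImplicit false

open Polynomial

namespace Run7.h258.Han

variable {k : Type} [Field k]

/-! ### Transcendence of `x` -/

lemma ox_pow_aux (n : ℕ) : ((ox k) ^ (n + 1)).im.natDegree ≤ 2 * n ∧
    ((ox k) ^ (n + 1)).im.coeff (2 * n) = 1 ∧ ((ox k) ^ (n + 1)).re.natDegree ≤ 2 * n + 1 := by
  induction n with
  | zero => simp [ox]
  | succ n ih =>
    obtain ⟨h1, h2, h3⟩ := ih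
    have e1 : ((ox k) ^ (n + 1 + 1)).im = ((ox k) ^ (n + 1)).re + X ^ 2 * ((ox k) ^ (n + 1)).im := by
      rw [pow_succ _ (n + 1)]
      simp [ox]
    have e2 : ((ox k) ^ (n + 1 + 1)).re = (2 * X - 1) * ((ox k) ^ (n + 1)).im := by
      rw [pow_succ _ (n + 1)]
      simp [ox]
    refine ⟨?_, ?_, ?_⟩
    · rw [e1]
      refine (natDegree_add_le _ _).trans (max_le (by omega) ?_)
      refine (natDegree_mul_le).trans ?_
      rw [natDegree_X_pow]; omega
    · rw [e1, coeff_add, show 2 * (n + 1) = 2 * n + 2 by ring, coeff_X_pow_mul, h2,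
        coeff_eq_zero_of_natDegree_lt (by omega), zero_add]
    · rw [e2]
      refine (natDegree_mul_le).trans ?_
      have : (2 * X - 1 : k[X]).natDegree ≤ 1 := by
        refine (natDegree_sub_le _ _).trans (max_le ?_ (by simp))
        refine (natDegree_mul_le).trans ?_
        have h2 : (2 : k[X]).natDegree = 0 := natDegree_ofNat 2
        rw [h2, natDegree_X]
      omega

lemma aeval_ox_eq_zero {F : k[X]} (h : aeval (ox k) F = 0) : F = 0 := by
  by_contra hF
  rcases Nat.eq_zero_or_pos F.natDegree with h0 | h0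
  · rw [eq_C_of_natDegree_eq_zero h0, aeval_C] at h
    have := congrArg O.re h
    simp only [O.re_algebraMap, O.re_zero, C_eq_zero] at this
    apply hF
    rw [eq_C_of_natDegree_eq_zero h0, this, C_0]
  · obtain ⟨e, he⟩ : ∃ e, F.natDegree = e + 1 := ⟨F.natDegree - 1, by omega⟩
    have h1 : (aeval (ox k) F).im.coeff (2 * e) = F.coeff (e + 1) := by
      rw [aeval_eq_sum_range, he]
      let φ : O k →ₗ[k] k :=
        { toFun := fun f => f.im.coeff (2 * e)
          map_add' := fun f g => by simp
          map_smul' := fun c f => by simp }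
      change φ (∑ i ∈ Finset.range (e + 1 + 1), F.coeff i • ox k ^ i) = _
      rw [map_sum, Finset.sum_range_succ, Finset.sum_eq_zero, zero_add, map_smul]
      · change _ • ((ox k) ^ (e + 1)).im.coeff (2 * e) = _
        rw [(ox_pow_aux e).2.1]; simp
      · intro i hi
        rw [map_smul]
        change _ • ((ox k) ^ i).im.coeff (2 * e) = _
        rcases i with _ | j
        · simp
        · have h5 : ((ox k) ^ (j + 1)).im.coeff (2 * e) = 0 := by
            apply coeff_eq_zero_of_natDegree_lt
            have := (ox_pow_aux (k := k) j).1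
            simp only [Finset.mem_range] at hi
            omega
          rw [h5, smul_zero]
    rw [h] at h1
    simp only [O.im_zero, coeff_zero] at h1
    have : F.leadingCoeff = 0 := by rw [leadingCoeff, he, ← h1]
    exact hF (leadingCoeff_eq_zero.mp this)

lemma iota_injective [CharZero k] : Function.Injective (iota k) := by
  rw [injective_iff_map_eq_zero]
  intro w hw
  rw [iota_apply] at hw
  have h1 : aeval (ox k) (w.re ^ 2 - w.im ^ 2 * (X ^ 3 + X + 1)) = 0 := by
    simp only [map_sub, map_mul, map_pow, map_add, aeval_X, map_one]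
    rw [← oy_sq]
    linear_combination (aeval (ox k) w.re - aeval (ox k) w.im * oy k) * hw
  have h2 := aeval_ox_eq_zero h1
  have h3 : w.im = 0 := by
    by_contra him
    have h4 : w.re ^ 2 = w.im ^ 2 * (X ^ 3 + X + 1) := by linear_combination h2
    have h5 : (X ^ 3 + X + 1 : k[X]).natDegree = 3 := by compute_degree!
    have h6 : (X ^ 3 + X + 1 : k[X]) ≠ 0 := by
      intro h; rw [h] at h5; simp at h5
    have h7 := congrArg natDegree h4
    rw [natDegree_pow, natDegree_mul (pow_ne_zero 2 him) h6, natDegree_pow, h5] at h7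
    omega
  rw [h3, map_zero, zero_mul, add_zero] at hw
  apply W.ext
  · exact aeval_ox_eq_zero hw
  · exact h3

/-! ### `O` is a domain -/

lemma mul_tau (f : O k) : f * tau k f =
    O.mk (f.re ^ 2 + X ^ 2 * f.re * f.im + (1 - 2 * X) * f.im ^ 2) 0 := by
  apply O.ext <;> simp <;> ring

/-- the norm to `k[lam]`. -/
noncomputable def nm (f : O k) : k[X] := f.re ^ 2 + X ^ 2 * f.re * f.im + (1 - 2 * X) * f.im ^ 2

lemma mul_tau' (f : O k) : f * tau k f = algebraMap k[X] (O k) (nm f) := mul_tau f

lemma nm_mul (f g : O k) : nm (f * g) = nm f * nm g := by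
  simp only [nm, O.re_mul, O.im_mul]; ring

lemma disc_natDegree : (X ^ 4 + 8 * X - 4 : k[X]).natDegree = 4 := by compute_degree!

lemma nm_disc (f : O k) : (2 * f.re + X ^ 2 * f.im) ^ 2 - (X ^ 4 + 8 * X - 4) * f.im ^ 2 =
    4 * nm f := by
  simp only [nm]; ring

lemma nm_eq_zero [CharZero k] {f : O k} (h : nm f = 0) : f = 0 := by
  have h1 := nm_disc f
  rw [h, mul_zero, sub_eq_zero] at h1
  have h2 : f.im = 0 := by
    by_contra him
    have h3 : f.im ^ 2 ∣ (2 * f.re + X ^ 2 * f.im) ^ 2 :=
      ⟨X ^ 4 + 8 * X - 4, by rw [h1]; ring⟩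
    rw [IsIntegrallyClosed.pow_dvd_pow_iff two_ne_zero] at h3
    obtain ⟨e, he⟩ := h3
    rw [he, mul_pow, mul_comm] at h1
    have h4 : e ^ 2 = X ^ 4 + 8 * X - 4 := mul_right_cancel₀ (pow_ne_zero 2 him) h1
    have h5 := congrArg natDegree h4
    rw [natDegree_pow, disc_natDegree] at h5
    have h6 : e.natDegree = 2 := by omega
    have h7 : e = C (e.coeff 2) * X ^ 2 + C (e.coeff 1) * X + C (e.coeff 0) := by
      conv_lhs => rw [e.as_sum_range_C_mul_X_pow, h6]
      simp [Finset.sum_range_succ]
      ring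
    have h8 : e.coeff 2 ≠ 0 := by
      rw [← h6]; intro h
      have := leadingCoeff_eq_zero.mp h
      rw [this] at h6; simp at h6
    set a := e.coeff 2
    set b := e.coeff 1
    set c := e.coeff 0
    have h9 : C (a ^ 2) * X ^ 4 + C (2 * a * b) * X ^ 3 + C (b ^ 2 + 2 * a * c) * X ^ 2 +
        C (2 * b * c) * X + C (c ^ 2) = (X ^ 4 + C 8 * X - C 4 : k[X]) := by
      have e8 : (C 8 : k[X]) = 8 := by rw [← map_ofNat (C : k →+* k[X]) 8]
      have e4 : (C 4 : k[X]) = 4 := by rw [← map_ofNat (C : k →+* k[X]) 4]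
      rw [e8, e4, ← h4, h7]
      simp only [map_add, map_mul, map_pow]
      have e2 : (C 2 : k[X]) = 2 := by rw [← map_ofNat (C : k →+* k[X]) 2]
      rw [e2]
      ring
    have c3 := congrArg (fun p => coeff p 3) h9
    have c1 := congrArg (fun p => coeff p 1) h9
    simp only [coeff_add, coeff_sub, coeff_C_mul, coeff_X_pow, coeff_X, coeff_C] at c3 c1
    norm_num at c3 c1
    rcases c3 with hh | hh
    · exact h8 hh
    · rw [hh] at c1; norm_num at c1
  rw [h2] at h1
  simp only [mul_zero, add_zero, ne_eq, OfNat.ofNat_ne_zero, not_false_eq_true, zero_pow] at h1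
  have h3 : (2 : k[X]) * f.re = 0 := pow_eq_zero_iff two_ne_zero |>.mp h1
  have h4 : f.re = 0 := by
    rcases mul_eq_zero.mp h3 with h | h
    · exact absurd h two_ne_zero
    · exact h
  exact O.ext h4 h2

instance instIsDomainO [CharZero k] : IsDomain (O k) := by
  have : Nontrivial (O k) := ⟨0, 1, fun h => by
    have := congrArg O.re h
    simp at this⟩
  have : NoZeroDivisors (O k) := ⟨by
    intro f g h
    have := congrArg nm h
    rw [nm_mul] at this
    have h0 : nm (0 : O k) = 0 := by simp [nm]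
    rw [h0] at this
    rcases mul_eq_zero.mp this with h | h
    · exact Or.inl (nm_eq_zero h)
    · exact Or.inr (nm_eq_zero h)⟩
  exact NoZeroDivisors.to_isDomain _

lemma ox_ne_zero : ox k ≠ 0 := by
  intro h
  have := congrArg O.im h
  simp [ox] at this

end Run7.h258.Han
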