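import Mathlib
import Pool.Agent.Run7.h258.Han.OL1

/-!
Facts on the ring `O k` and the spaces `L k m n`: leading coefficients.
-/

set_option autoImplicit false

open Polynomial

namespace Run7.h258.Han

variable {k : Type} [Field k]

/-- The leading coefficient at infinity. -/
noncomputable def lcI (m : ℕ) (f : O k) : k := lc k m (tau k f)

/-- evaluation of functions at an affine point, given by the values `t` of `lam` and `x0` of `x`. -/
noncomputable def evO (t x0 : k) (h : x0 ^ 2 = t ^ 2 * x0 - 1 + 2 * t) : O k →ₐ[k] k where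
  toFun f := f.re.eval t + f.im.eval t * x0
  map_one' := by simp
  map_mul' f g := by
    simp
    linear_combination (-(f.im.eval t * g.im.eval t)) * h
  map_zero' := by simp
  map_add' f g := by simp; ring
  commutes' c := by simp

@[simp] lemma evO_lam (t x0 : k) (h) : evO t x0 h (lam k) = t := by simp [evO, lam]
@[simp] lemma evO_ox (t x0 : k) (h) : evO t x0 h (ox k) = x0 := by simp [evO, ox]
@[simp] lemma evO_ox' (t x0 : k) (h) : evO t x0 h (ox' k) = t ^ 2 - x0 := by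
  simp [evO, ox']; ring
@[simp] lemma evO_oy (t x0 : k) (h) : evO t x0 h (oy k) = 1 + t * x0 := by
  simp [evO, oy]
@[simp] lemma evO_oy' (t x0 : k) (h) : evO t x0 h (oy' k) = -1 - t * (t ^ 2 - x0) := by
  simp [evO, oy']; ring

lemma evW_mul {a b : k} (h : b ^ 2 = a ^ 3 + a + 1) (f g : W k) :
    evW k a b (f * g) = evW k a b f * evW k a b g := by
  simp [evW]
  linear_combination (-(f.im.eval a * g.im.eval a)) * h

lemma evW_X (a b : k) : evW k a b (W.mk X 0) = a := by simp [evW]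
lemma evW_Y (a b : k) : evW k a b (W.mk 0 1) = b := by simp [evW]
lemma evW_one (a b : k) : evW k a b 1 = 1 := by simp [evW]

section lc

variable [CharZero k]

lemma lc_of {n : ℕ} {f : O k} {w : W k} (h : iota k w = ox k ^ n * f) :
    lc k n f = evW k 0 (-1) w := by
  have hex : ∃ w : W k, iota k w = ox k ^ n * f := ⟨w, h⟩
  rw [lc, dif_pos hex, iota_injective (hex.choose_spec.trans h.symm)]

/-- `lc` as a linear map on `Lp`. -/
lemma lc_add {n : ℕ} {f g : O k} (hf : f ∈ Lp k n) (hg : g ∈ Lp k n) :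
    lc k n (f + g) = lc k n f + lc k n g := by
  obtain ⟨w, hw⟩ := hf
  obtain ⟨v, hv⟩ := hg
  rw [lc_of hw, lc_of hv, lc_of (w := w + v) (by rw [map_add, hw, hv]; ring), map_add]

lemma lc_smul {n : ℕ} (c : k) {f : O k} (hf : f ∈ Lp k n) :
    lc k n (c • f) = c * lc k n f := by
  obtain ⟨w, hw⟩ := hf
  rw [lc_of hw, lc_of (w := c • w) (by rw [map_smul, hw, mul_smul_comm]), map_smul, smul_eq_mul]

lemma lc_neg {n : ℕ} {f : O k} (hf : f ∈ Lp k n) : lc k n (-f) = - lc k n f := by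
  obtain ⟨w, hw⟩ := hf
  rw [lc_of hw, lc_of (w := -w) (by rw [map_neg, hw]; ring), map_neg]

lemma lc_sub {n : ℕ} {f g : O k} (hf : f ∈ Lp k n) (hg : g ∈ Lp k n) :
    lc k n (f - g) = lc k n f - lc k n g := by
  rw [sub_eq_add_neg, lc_add hf (neg_mem hg), lc_neg hg, sub_eq_add_neg]

lemma lc_mul {m n : ℕ} {f g : O k} (hf : f ∈ Lp k m) (hg : g ∈ Lp k n) :
    lc k (m + n) (f * g) = lc k m f * lc k n g := by
  obtain ⟨w, hw⟩ := hf
  obtain ⟨v, hv⟩ := hg
  rw [lc_of hw, lc_of hv, lc_of (w := w * v) (by rw [map_mul, hw, hv]; ring),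
    evW_mul (by norm_num)]

lemma evO_iota (w : W k) :
    evO (1 / 2) 0 (by norm_num) (iota k w) = evW k 0 1 w := by
  rw [iota_apply, map_add, map_mul, ← Polynomial.aeval_algHom_apply,
    ← Polynomial.aeval_algHom_apply, evO_ox, evO_oy]
  simp [evW, Polynomial.aeval_def, Polynomial.eval₂_at_zero, Polynomial.coeff_zero_eq_eval_zero]

lemma lc_eq_zero_iff {n : ℕ} {f : O k} (hf : f ∈ Lp k (n + 1)) :
    lc k (n + 1) f = 0 ↔ f ∈ Lp k n := by
  constructor
  · intro h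
    obtain ⟨w, hw⟩ := hf
    rw [lc_of hw] at h
    have h1 : evW k 0 1 w = 0 := by
      rw [← evO_iota, hw, map_mul, map_pow, evO_ox]
      simp
    have h2 : w.re.eval 0 + w.im.eval 0 * (-1) = 0 := h
    have h3 : w.re.eval 0 + w.im.eval 0 * 1 = 0 := h1
    have h4 : w.re.eval 0 = 0 := by linear_combination (h2 + h3) / 2
    have h5 : w.im.eval 0 = 0 := by linear_combination (h3 - h2) / 2
    have h6 : X ∣ w.re := by rwa [X_dvd_iff, coeff_zero_eq_eval_zero]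
    have h7 : X ∣ w.im := by rwa [X_dvd_iff, coeff_zero_eq_eval_zero]
    obtain ⟨a, ha⟩ := h6
    obtain ⟨b, hb⟩ := h7
    have h8 : w = W.mk X 0 * W.mk a b := by
      apply W.ext
      · simp [ha]
      · simp [hb]
    rw [h8, map_mul, iota_X, pow_succ', mul_assoc] at hw
    exact ⟨_, mul_left_cancel₀ ox_ne_zero hw⟩
  · rintro ⟨v, hv⟩
    rw [lc_of (w := W.mk X 0 * v) (by rw [map_mul, iota_X, hv]; ring),
      evW_mul (by norm_num), evW_X, zero_mul]

lemma lc_eq_zero {m n : ℕ} (hmn : m < n) {f : O k} (hf : f ∈ Lp k m) : lc k n f = 0 := by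
  obtain ⟨d, rfl⟩ : ∃ d, n = d + 1 := ⟨n - 1, by omega⟩
  exact (lc_eq_zero_iff (Lp_mono (by omega) hf)).mpr (Lp_mono (by omega) hf)

lemma lc_one : lc k 0 (1 : O k) = 1 := by
  rw [lc_of (w := 1) (by simp), evW_one]

lemma lc_ox : lc k 0 (ox k) = 0 := by
  rw [lc_of (w := W.mk X 0) (by rw [iota_X]; simp), evW_X]

lemma lc_oy : lc k 0 (oy k) = -1 := by
  rw [lc_of (w := W.mk 0 1) (by rw [iota_Y]; simp), evW_Y]

lemma lc_lam : lc k 1 (lam k) = -2 := by
  rw [lc_of (w := W.mk 0 1 - 1) (by rw [map_sub, iota_Y, map_one, pow_one, mul_comm, lam_mul_ox]),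
    map_sub, evW_Y, evW_one]
  norm_num

lemma lc_ox' : lc k 2 (ox' k) = 4 := by
  rw [lc_of (w := W.mk X 0 - (2 : k) • W.mk 0 1 + (2 : k) • 1) (by
    rw [map_add, map_sub, map_smul, map_smul, iota_Y, iota_X, map_one, ox_sq_mul_ox',
      Algebra.smul_def, Algebra.smul_def, map_ofNat]; ring),
    map_add, map_sub, map_smul, map_smul, evW_Y, evW_one, evW_X]
  norm_num

lemma lc_oy' : lc k 3 (oy' k) = 8 := by
  rw [oy'_eq, lc_sub (neg_mem (Lp_mono (by omega) one_mem_Lp))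
    (Lp_mul (m := 1) (n := 2) lam_mem_Lp ox'_mem_Lp),
    lc_mul (m := 1) (n := 2) lam_mem_Lp ox'_mem_Lp, lc_lam, lc_ox',
    lc_eq_zero (m := 0) (by omega) (neg_mem one_mem_Lp)]
  norm_num

omit [CharZero k] in
lemma le_eq {R : Type} [CommRing R] [Algebra k R] (s : Fin 3 → k) (a b c : R) :
    le k s ![a, b, c] = s 0 • a + s 1 • b + s 2 • c := rfl

/-- value of `(1, x, y)` at `-P`. -/
lemma lc_le_vx (s : Fin 3 → k) : lc k 0 (le k s (vx k)) = s 0 - s 2 := by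
  have h0 := Submodule.smul_mem (Lp k 0) (s 0) one_mem_Lp
  have h1 := Submodule.smul_mem (Lp k 0) (s 1) ox_mem_Lp
  have h2 := Submodule.smul_mem (Lp k 0) (s 2) oy_mem_Lp
  rw [vx, le_eq, lc_add (add_mem h0 h1) h2, lc_add h0 h1, lc_smul _ one_mem_Lp,
    lc_smul _ ox_mem_Lp, lc_smul _ oy_mem_Lp, lc_one, lc_ox, lc_oy]
  ring

/-- leading coefficient of `(1, x', y')` at `-P`. -/
lemma lc_le_vx' (s : Fin 3 → k) : lc k 3 (le k s (vx' k)) = 8 * s 2 := by
  have e0 : (1 : O k) ∈ Lp k 3 := Lp_mono (by omega) one_mem_Lp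
  have e1 : ox' k ∈ Lp k 3 := Lp_mono (by omega) ox'_mem_Lp
  have h0 := Submodule.smul_mem (Lp k 3) (s 0) e0
  have h1 := Submodule.smul_mem (Lp k 3) (s 1) e1
  have h2 := Submodule.smul_mem (Lp k 3) (s 2) oy'_mem_Lp
  rw [vx', le_eq, lc_add (add_mem h0 h1) h2, lc_add h0 h1, lc_smul _ e0,
    lc_smul _ e1, lc_smul _ oy'_mem_Lp, lc_eq_zero (m := 0) (by omega) one_mem_Lp,
    lc_eq_zero (m := 2) (by omega) ox'_mem_Lp, lc_oy']
  ring

lemma lcI_add {n : ℕ} {f g : O k} (hf : tau k f ∈ Lp k n) (hg : tau k g ∈ Lp k n) :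
    lcI n (f + g) = lcI n f + lcI n g := by
  rw [lcI, map_add, lc_add hf hg]; rfl

lemma lcI_sub {n : ℕ} {f g : O k} (hf : tau k f ∈ Lp k n) (hg : tau k g ∈ Lp k n) :
    lcI n (f - g) = lcI n f - lcI n g := by
  rw [lcI, map_sub, lc_sub hf hg]; rfl

lemma lcI_smul {n : ℕ} (c : k) {f : O k} (hf : tau k f ∈ Lp k n) :
    lcI n (c • f) = c * lcI n f := by
  rw [lcI, map_smul, lc_smul _ hf]; rfl

lemma lcI_mul {m n : ℕ} {f g : O k} (hf : tau k f ∈ Lp k m) (hg : tau k g ∈ Lp k n) :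
    lcI (m + n) (f * g) = lcI m f * lcI n g := by
  rw [lcI, map_mul, lc_mul hf hg]; rfl

lemma lcI_eq_zero_iff {n : ℕ} {f : O k} (hf : tau k f ∈ Lp k (n + 1)) :
    lcI (n + 1) f = 0 ↔ tau k f ∈ Lp k n := lc_eq_zero_iff hf

lemma lcI_eq_zero {m n : ℕ} (hmn : m < n) {f : O k} (hf : tau k f ∈ Lp k m) : lcI n f = 0 :=
  lc_eq_zero hmn hf

lemma lcI_one : lcI 0 (1 : O k) = 1 := by rw [lcI, map_one, lc_one]
lemma lcI_lam : lcI 1 (lam k) = -2 := by rw [lcI, tau_lam, lc_lam]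
lemma lcI_ox : lcI 2 (ox k) = 4 := by rw [lcI, tau_ox, lc_ox']
lemma lcI_oy : lcI 3 (oy k) = -8 := by rw [lcI, tau_oy, lc_neg oy'_mem_Lp, lc_oy']
lemma lcI_ox' : lcI 0 (ox' k) = 0 := by rw [lcI, tau_ox', lc_ox]
lemma lcI_oy' : lcI 0 (oy' k) = 1 := by rw [lcI, tau_oy', lc_neg oy_mem_Lp, lc_oy, neg_neg]

/-- leading coefficient of `(1, x, y)` at infinity. -/
lemma lcI_le_vx (s : Fin 3 → k) : lcI 3 (le k s (vx k)) = -8 * s 2 := by
  have e0 : tau k (1 : O k) ∈ Lp k 3 := by rw [map_one]; exact Lp_mono (by omega) one_mem_Lp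
  have e1 : tau k (ox k) ∈ Lp k 3 := by rw [tau_ox]; exact Lp_mono (by omega) ox'_mem_Lp
  have e2 : tau k (oy k) ∈ Lp k 3 := by rw [tau_oy]; exact neg_mem oy'_mem_Lp
  have h0 : tau k (s 0 • 1) ∈ Lp k 3 := by rw [map_smul]; exact Submodule.smul_mem _ _ e0
  have h1 : tau k (s 1 • ox k) ∈ Lp k 3 := by rw [map_smul]; exact Submodule.smul_mem _ _ e1
  have h2 : tau k (s 2 • oy k) ∈ Lp k 3 := by rw [map_smul]; exact Submodule.smul_mem _ _ e2
  have h3 : tau k (s 0 • 1 + s 1 • ox k) ∈ Lp k 3 := by rw [map_add]; exact add_mem h0 h1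
  rw [vx, le_eq, lcI_add h3 h2, lcI_add h0 h1, lcI_smul _ e0, lcI_smul _ e1, lcI_smul _ e2,
    lcI_oy, lcI_eq_zero (m := 0) (by omega) (by rw [map_one]; exact one_mem_Lp),
    lcI_eq_zero (m := 2) (by omega) (by rw [tau_ox]; exact ox'_mem_Lp)]
  ring

/-- value of `(1, x', y')` at infinity. -/
lemma lcI_le_vx' (s : Fin 3 → k) : lcI 0 (le k s (vx' k)) = s 0 + s 2 := by
  have e0 : tau k (1 : O k) ∈ Lp k 0 := by rw [map_one]; exact one_mem_Lp
  have e1 : tau k (ox' k) ∈ Lp k 0 := by rw [tau_ox']; exact ox_mem_Lp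
  have e2 : tau k (oy' k) ∈ Lp k 0 := by rw [tau_oy']; exact neg_mem oy_mem_Lp
  have h0 : tau k (s 0 • 1) ∈ Lp k 0 := by rw [map_smul]; exact Submodule.smul_mem _ _ e0
  have h1 : tau k (s 1 • ox' k) ∈ Lp k 0 := by rw [map_smul]; exact Submodule.smul_mem _ _ e1
  have h2 : tau k (s 2 • oy' k) ∈ Lp k 0 := by rw [map_smul]; exact Submodule.smul_mem _ _ e2
  have h3 : tau k (s 0 • 1 + s 1 • ox' k) ∈ Lp k 0 := by rw [map_add]; exact add_mem h0 h1
  rw [vx', le_eq, lcI_add h3 h2, lcI_add h0 h1, lcI_smul _ e0, lcI_smul _ e1, lcI_smul _ e2,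
    lcI_oy', lcI_ox', lcI_one]
  ring

lemma exists_lc_aux (n : ℕ) : ∀ c : k, ∃ f ∈ L k 0 (n + 2), lc k (n + 2) f = c := by
  induction n using Nat.strong_induction_on with
  | _ n ih =>
    intro c
    rcases n with _ | _ | n
    · exact ⟨(c / 4) • ox' k, Submodule.smul_mem _ _ ox'_mem_L, by
        rw [lc_smul _ ox'_mem_Lp, lc_ox']; field_simp⟩
    · exact ⟨(c / 8) • oy' k, Submodule.smul_mem _ _ oy'_mem_L, by
        rw [lc_smul _ oy'_mem_Lp, lc_oy']; field_simp⟩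
    · obtain ⟨f, hf, hc⟩ := ih n (by omega) (c / 4)
      refine ⟨f * ox' k, L_mono (by omega) (by omega) (L_mul hf ox'_mem_L), ?_⟩
      rw [lc_mul (m := n + 2) (n := 2) (mem_L_iff.mp hf).2 ox'_mem_Lp, hc, lc_ox']
      field_simp

/-- leading coefficients are surjective at `-P`. -/
lemma exists_lc {m n : ℕ} (hn : 1 ≤ n) (hmn : 2 ≤ m + n) (c : k) :
    ∃ f ∈ L k m n, lc k n f = c := by
  rcases n with _ | _ | n
  · omega
  · exact ⟨(c / (-2)) • lam k, Submodule.smul_mem _ _ (L_mono (by omega) (by omega) lam_mem_L), by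
      rw [zero_add, lc_smul _ lam_mem_Lp, lc_lam]; field_simp⟩
  · obtain ⟨f, hf, hc⟩ := exists_lc_aux n c
    exact ⟨f, L_mono (by omega) (by omega) hf, hc⟩

omit [CharZero k] in
lemma tau_mem_L {m n : ℕ} {f : O k} (hf : f ∈ L k m n) : tau k f ∈ L k n m := by
  rw [mem_L_iff] at hf ⊢
  rw [tau_tau]
  exact ⟨hf.2, hf.1⟩

/-- leading coefficients are surjective at infinity. -/
lemma exists_lcI {m n : ℕ} (hm : 1 ≤ m) (hmn : 2 ≤ m + n) (c : k) :
    ∃ f ∈ L k m n, lcI m f = c := by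
  obtain ⟨f, hf, hc⟩ := exists_lc (m := n) (n := m) hm (by omega) c
  exact ⟨tau k f, tau_mem_L hf, by rw [lcI, tau_tau, hc]⟩

end lc

end Run7.h258.Han
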