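import Mathlib
import Pool.Agent.Run7.h258.Han.OL2

/-!
Facts on the ring `O k` and the spaces `L k m n`: finiteness.
-/

set_option autoImplicit false

open Polynomial

namespace Run7.h258.Han

variable {k : Type} [Field k]

lemma algebraMap_monomial (n : ℕ) (a : k) :
    algebraMap k[X] (O k) (monomial n a) = a • lam k ^ n := by
  have h2 : lam k ^ n = algebraMap k[X] (O k) (X ^ n) := by
    rw [map_pow]; rfl
  rw [h2]
  apply O.ext
  · change monomial n a = a • X ^ n
    rw [smul_eq_C_mul, C_mul_X_pow_eq_monomial]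
  · change (0 : k[X]) = a • 0
    rw [smul_zero]

lemma lam_pow_mem_L (n : ℕ) : lam k ^ n ∈ L k n n := by
  induction n with
  | zero => rw [pow_zero]; exact one_mem_L
  | succ n ih =>
    rw [pow_succ]
    exact L_mul ih lam_mem_L

lemma exists_mem_L_poly (p : k[X]) : ∃ N, algebraMap k[X] (O k) p ∈ L k N N := by
  induction p using Polynomial.induction_on' with
  | add p q hp hq =>
    obtain ⟨N, hN⟩ := hp
    obtain ⟨N', hN'⟩ := hq
    refine ⟨max N N', ?_⟩
    rw [map_add]
    exact add_mem (L_mono (le_max_left _ _) (le_max_left _ _) hN)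
      (L_mono (le_max_right _ _) (le_max_right _ _) hN')
  | monomial n a =>
    refine ⟨n, ?_⟩
    rw [algebraMap_monomial]
    exact Submodule.smul_mem _ _ (lam_pow_mem_L n)

/-- Every function has finite pole orders. -/
lemma exists_mem_L (f : O k) : ∃ N, ∀ m n, N ≤ m → N ≤ n → f ∈ L k m n := by
  obtain ⟨N, hN⟩ := exists_mem_L_poly f.re
  obtain ⟨N', hN'⟩ := exists_mem_L_poly f.im
  have h : f = algebraMap k[X] (O k) f.re + algebraMap k[X] (O k) f.im * ox k := by
    apply O.ext <;> simp [ox]
  refine ⟨max N (N' + 2), fun m n hm hn => ?_⟩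
  rw [h]
  exact add_mem (L_mono (by omega) (by omega) hN)
    (L_mono (by omega) (by omega) (L_mul hN' ox_mem_L))

lemma exists_mem_MN (m : Matrix (Fin 3) (Fin 3) (O k)) : ∃ N, m ∈ MN k N := by
  choose f hf using fun p : Fin 3 × Fin 3 => exists_mem_L (m p.1 p.2)
  refine ⟨∑ p, f p, fun i j => hf (i, j) _ _ ?_ ?_⟩
  · have := Finset.single_le_sum (f := f) (fun p _ => Nat.zero_le _) (Finset.mem_univ (i, j))
    omega
  · have := Finset.single_le_sum (f := f) (fun p _ => Nat.zero_le _) (Finset.mem_univ (i, j))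
    omega

lemma lc_poly [CharZero k] (p : k[X]) (n : ℕ) (hp : p.natDegree ≤ n) :
    algebraMap k[X] (O k) p ∈ Lp k n ∧
      lc k n (algebraMap k[X] (O k) p) = p.coeff n * (-2) ^ n := by
  have hl : ∀ i, lam k ^ i ∈ Lp k i ∧ lc k i (lam k ^ i) = (-2) ^ i := by
    intro i
    induction i with
    | zero => simpa using ⟨one_mem_Lp, lc_one⟩
    | succ i ih =>
      rw [pow_succ, pow_succ]
      exact ⟨Lp_mul ih.1 lam_mem_Lp, by rw [lc_mul ih.1 lam_mem_Lp, ih.2, lc_lam]⟩
  have h1 : algebraMap k[X] (O k) p = ∑ i ∈ Finset.range (n + 1), p.coeff i • lam k ^ i := by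
    conv_lhs => rw [p.as_sum_range' (n + 1) (by omega)]
    rw [map_sum]
    exact Finset.sum_congr rfl fun i _ => algebraMap_monomial _ _
  have h3 : ∑ i ∈ Finset.range n, p.coeff i • lam k ^ i ∈ Lp k n :=
    Submodule.sum_mem _ fun i hi => Submodule.smul_mem _ _
      (Lp_mono (by have := Finset.mem_range.mp hi; omega) (hl i).1)
  have h4 : p.coeff n • lam k ^ n ∈ Lp k n := Submodule.smul_mem _ _ (hl n).1
  rw [h1, Finset.sum_range_succ]
  refine ⟨add_mem h3 h4, ?_⟩
  rw [lc_add h3 h4, lc_smul _ (hl n).1, (hl n).2]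
  rcases n with _ | n
  · rw [Finset.range_zero, Finset.sum_empty]
    rw [lc_of (f := 0) (w := 0) (by simp), map_zero, zero_add]
  · rw [lc_eq_zero (m := n) (by omega), zero_add]
    exact Submodule.sum_mem _ fun i hi => Submodule.smul_mem _ _
      (Lp_mono (by have := Finset.mem_range.mp hi; omega) (hl i).1)

lemma natDegree_of_mem_Lp_zero [CharZero k] {p : k[X]} (h : algebraMap k[X] (O k) p ∈ Lp k 0) :
    p.natDegree = 0 := by
  by_contra hp
  have h1 := (lc_poly p p.natDegree le_rfl).2
  rw [lc_eq_zero (m := 0) (by omega) h] at h1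
  have h2 : p.coeff p.natDegree ≠ 0 := by
    intro h0
    have := leadingCoeff_eq_zero.mp h0
    rw [this] at hp; simp at hp
  have h3 : p.coeff p.natDegree * (-2) ^ p.natDegree ≠ 0 :=
    mul_ne_zero h2 (pow_ne_zero _ (by norm_num))
  exact h3 h1.symm

/-- The constants. -/
lemma L_zero_zero [CharZero k] {f : O k} (hf : f ∈ L k 0 0) : ∃ c : k, f = algebraMap k _ c := by
  rw [mem_L_iff] at hf
  have hT : f + tau k f = algebraMap k[X] (O k) (2 * f.re + X ^ 2 * f.im) := by
    apply O.ext
    · change f.re + (f.re + X ^ 2 * f.im) = 2 * f.re + X ^ 2 * f.im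
      ring
    · change f.im + (- f.im) = 0
      ring
  have h1 : (2 * f.re + X ^ 2 * f.im).natDegree = 0 :=
    natDegree_of_mem_Lp_zero (by rw [← hT]; exact add_mem hf.2 hf.1)
  have h2 : (nm f).natDegree = 0 :=
    natDegree_of_mem_Lp_zero (by rw [← mul_tau']; exact Lp_mono (by omega) (Lp_mul hf.2 hf.1))
  have h3 := nm_disc f
  have h4 : f.im = 0 := by
    by_contra him
    have h5 : (X ^ 4 + 8 * X - 4) * f.im ^ 2 = (2 * f.re + X ^ 2 * f.im) ^ 2 - 4 * nm f := by
      linear_combination -h3
    have h6 := congrArg natDegree h5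
    have h7 : (X ^ 4 + 8 * X - 4 : k[X]) ≠ 0 := by
      intro h
      have := disc_natDegree (k := k)
      rw [h] at this; simp at this
    rw [natDegree_mul h7 (pow_ne_zero 2 him), disc_natDegree] at h6
    have h8 : ((2 * f.re + X ^ 2 * f.im) ^ 2 - 4 * nm f).natDegree ≤ 0 := by
      refine (natDegree_sub_le _ _).trans (max_le ?_ ?_)
      · refine natDegree_pow_le.trans ?_
        rw [h1]
      · refine natDegree_mul_le.trans ?_
        have h9 : (4 : k[X]).natDegree = 0 := natDegree_ofNat 4
        rw [h2, h9]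
    omega
  rw [h4, mul_zero, add_zero] at h1
  have h5 : f.re.natDegree = 0 := by
    have h6 : (2 : k[X]) = C 2 := (map_ofNat (C : k →+* k[X]) 2).symm
    rw [h6, natDegree_C_mul two_ne_zero] at h1
    exact h1
  refine ⟨f.re.coeff 0, ?_⟩
  apply O.ext
  · rw [O.re_algebraMap]; exact eq_C_of_natDegree_eq_zero h5
  · rw [h4]; rfl

lemma L_succ_le [CharZero k] (m n : ℕ) : ∃ g : O k, L k m (n + 1) ≤ L k m n ⊔ Submodule.span k {g} := by
  by_cases h : ∃ g ∈ L k m (n + 1), lc k (n + 1) g ≠ 0
  · obtain ⟨g, hg, hg0⟩ := h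
    refine ⟨g, fun f hf => ?_⟩
    have h1 : f - (lc k (n + 1) f / lc k (n + 1) g) • g ∈ L k m n := by
      have h2 := sub_mem hf (Submodule.smul_mem _ (lc k (n + 1) f / lc k (n + 1) g) hg)
      rw [mem_L_iff] at h2 hf hg ⊢
      refine ⟨h2.1, (lc_eq_zero_iff h2.2).mp ?_⟩
      rw [lc_sub hf.2 (Submodule.smul_mem _ _ hg.2), lc_smul _ hg.2]
      field_simp
      ring
    have h2 : f = (f - (lc k (n + 1) f / lc k (n + 1) g) • g) +
        (lc k (n + 1) f / lc k (n + 1) g) • g := by ring
    rw [h2]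
    exact Submodule.add_mem_sup h1 (Submodule.smul_mem _ _ (Submodule.mem_span_singleton_self g))
  · push Not at h
    refine ⟨0, fun f hf => Submodule.mem_sup_left ?_⟩
    have := h f hf
    rw [mem_L_iff] at hf ⊢
    exact ⟨hf.1, (lc_eq_zero_iff hf.2).mp this⟩

lemma L_swap (m n : ℕ) : L k m n = (L k n m).map (tau k).toLinearMap := by
  ext f
  constructor
  · intro hf
    exact ⟨tau k f, tau_mem_L hf, tau_tau k f⟩
  · rintro ⟨g, hg, rfl⟩
    exact tau_mem_L hg

instance instFiniteL [CharZero k] (m n : ℕ) : Module.Finite k (L k m n) := by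
  have step : ∀ m n, Module.Finite k (L k m n) → Module.Finite k (L k m (n + 1)) := by
    intro m n hmn
    obtain ⟨g, hg⟩ := L_succ_le (k := k) m n
    exact Submodule.finiteDimensional_of_le hg
  have swap : ∀ m n, Module.Finite k (L k m n) → Module.Finite k (L k n m) := by
    intro m n hmn
    rw [L_swap]
    infer_instance
  have base : Module.Finite k (L k 0 0) := by
    have : L k 0 0 ≤ Submodule.span k {1} := by
      intro f hf
      obtain ⟨c, rfl⟩ := L_zero_zero hf
      rw [Algebra.algebraMap_eq_smul_one]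
      exact Submodule.smul_mem _ _ (Submodule.mem_span_singleton_self _)
    exact Submodule.finiteDimensional_of_le this
  have h0 : ∀ m, Module.Finite k (L k m 0) := by
    intro m
    induction m with
    | zero => exact base
    | succ m ih => exact swap _ _ (step _ _ (swap _ _ ih))
  induction n with
  | zero => exact h0 m
  | succ n ih => exact step _ _ ih

instance instFiniteMN [CharZero k] (N : ℕ) : Module.Finite k (MN k N) := by
  let φ : MN k N →ₗ[k] (∀ p : Fin 3 × Fin 3,
      L k (3 * (2 - (p.1 : ℕ)) + 1 + N) (3 * (p.2 : ℕ) + 1 + N)) :=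
    { toFun := fun m p => ⟨m.1 p.1 p.2, m.2 p.1 p.2⟩
      map_add' := fun m m' => rfl
      map_smul' := fun c m => rfl }
  have hφ : Function.Injective φ := by
    intro m m' h
    apply Subtype.ext
    ext1 i j
    have := congrFun h (i, j)
    exact congrArg Subtype.val this
  exact Module.Finite.of_injective φ hφ

instance instFiniteA [CharZero k] : Module.Finite k (A k) :=
  inferInstanceAs (Module.Finite k (B k × M k))

/-- `O / f O` is finite-dimensional. -/
lemma finite_quot [CharZero k] {f : O k} (hf : f ≠ 0) :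
    Module.Finite k (O k ⧸ Ideal.span {f}) := by
  have hN : nm f ≠ 0 := fun h => hf (nm_eq_zero h)
  set N := nm f with hNdef
  let D := degreeLT k N.natDegree
  let φ : (D × D) →ₗ[k] (O k ⧸ Ideal.span {f}) :=
    { toFun := fun p => Ideal.Quotient.mk _ (O.mk p.1.1 p.2.1)
      map_add' := fun p q => by
        rw [← map_add]; rfl
      map_smul' := fun c p => rfl }
  have : Module.Finite k D := inferInstance
  refine Module.Finite.of_surjective φ ?_
  intro z
  obtain ⟨g, rfl⟩ := Ideal.Quotient.mk_surjective z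
  have hmod : ∀ p : k[X], p % N ∈ D := fun p => by
    rw [mem_degreeLT]
    exact lt_of_lt_of_le (EuclideanDomain.mod_lt p hN) degree_le_natDegree
  refine ⟨(⟨g.re % N, hmod _⟩, ⟨g.im % N, hmod _⟩), ?_⟩
  change Ideal.Quotient.mk _ (O.mk (g.re % N) (g.im % N)) = _
  rw [Ideal.Quotient.mk_eq_mk_iff_sub_mem, ← neg_mem_iff, Ideal.mem_span_singleton]
  have h1 : -(O.mk (g.re % N) (g.im % N) - g) = algebraMap k[X] (O k) N *
      O.mk (g.re / N) (g.im / N) := by
    apply O.ext
    · simp only [O.re_neg, O.re_sub, O.re_mk, O.re_mul, O.re_palgebraMap, O.im_palgebraMap,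
        mul_zero, zero_mul, add_zero]
      linear_combination -EuclideanDomain.div_add_mod g.re N
    · simp only [O.im_neg, O.im_sub, O.im_mk, O.im_mul, O.re_palgebraMap, O.im_palgebraMap,
        mul_zero, zero_mul, add_zero]
      linear_combination -EuclideanDomain.div_add_mod g.im N
  rw [h1, hNdef, ← mul_tau', mul_assoc]
  exact dvd_mul_right _ _

end Run7.h258.Han
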