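import Mathlib
import Pool.Agent.Run7.h258.Han.KDat
import Pool.Agent.Run7.h258.Han.OL
import Pool.Agent.Run7.h921.Han.GRP
import Pool.Agent.Run7.h921.Han.F1b

/-!
Step A: the Hochschild homology of `A` with coefficients in `X(p, p + j P0)` vanishes, `j ≥ 1`.
-/

set_option autoImplicit false

open Run7.h817.Han Run7.h921.Han Run7.h975.Han Run7.h921.Han.F1

open scoped TensorProduct

namespace Run7.h258.Han

variable {k : Type} [Field k]

lemma vec_ne_zero (p : (E k).Point) : vec k p ≠ 0 := by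
  intro h
  rcases p with _ | ⟨x, y, hxy⟩
  · have := congrFun h 2
    change (1 : k) = 0 at this
    exact one_ne_zero this
  · have := congrFun h 0
    change (1 : k) = 0 at this
    exact one_ne_zero this

lemma vec_eq [CharZero k] (p : (E k).Point) : vec k p = Run7.h921.Han.vec (F := k) p := by
  rcases p with _ | ⟨x, y, hxy⟩ <;> rfl

/-- The hypothesis on the Koszul complexes (pieces F1, KOS, KD). -/
def HKD (k : Type) [Field k] [CharZero k] [DecidableEq k] : Prop :=
  ∀ p : (E k).Point, ∃ l1 l2 : Fin 3 → k, le k l1 (vec k p) = 0 ∧ le k l2 (vec k p) = 0 ∧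
    (∀ a b : k, a • l1 + b • l2 = 0 → a = 0 ∧ b = 0) ∧
    Nonempty (KDat (vec k p) (vec k (p - Pz k)) l1 l2)

variable [CharZero k] [DecidableEq k]

lemma le_vec_ne {p : (E k).Point} {j : ℕ} (hj : 0 < j) {l1 l2 : Fin 3 → k}
    (h1 : le k l1 (vec k p) = 0) (h2 : le k l2 (vec k p) = 0)
    (hind : ∀ a b : k, a • l1 + b • l2 = 0 → a = 0 ∧ b = 0) :
    le k l1 (vec k (p + j • Pz k)) ≠ 0 ∨ le k l2 (vec k (p + j • Pz k)) ≠ 0 := by
  by_contra hcon
  push Not at hcon
  obtain ⟨c, hc⟩ := exists_smul_of_le (vec_ne_zero p) hind h1 h2 hcon.1 hcon.2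
  have h3 : (p + j • Pz k : (E k).Point) = p := by
    apply Run7.h921.Han.vec_inj (F := k) c
    intro i
    have := hc i
    rw [vec_eq, vec_eq] at this
    exact this
  have h4 : (j • Pz k : (E k).Point) = 0 := by
    have h5 : p + j • Pz k = p + 0 := by rw [h3, add_zero]
    exact add_left_cancel h5
  exact ORD (F := k) j hj h4

/-- Step A. -/
theorem stepA (HK : HKD k) (n : ℕ) : ∀ (p : (E k).Point) (j : ℕ), 0 < j → ∀ i ≤ n,
    Hv i (XX (vec k p) (vec k (p + j • Pz k))) := by
  induction n with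
  | zero =>
    intro p j hj i hi
    obtain ⟨l1, l2, h1, h2, hind, ⟨K⟩⟩ := HK p
    obtain ⟨π, σ, S⟩ := step_XX K (le_vec_ne hj h1 h2 hind)
    obtain rfl : i = 0 := by omega
    exact S.zero
  | succ n ih =>
    intro p j hj
    obtain ⟨l1, l2, h1, h2, hind, ⟨K⟩⟩ := HK p
    obtain ⟨π, σ, S⟩ := step_XX K (le_vec_ne hj h1 h2 hind)
    have hq : (p - Pz k) + (j + 1) • Pz k = p + j • Pz k := by
      rw [add_smul, one_smul]; abel
    have ih' := ih (p - Pz k) (j + 1) (by omega)
    rw [hq] at ih'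
    exact S.succ les n ih' ih'

omit [CharZero k] [DecidableEq k] in
/-- The bimodule `X(p,q)` in matrix form. -/
theorem hv_matAct {p q : Fin 3 → k} {n : ℕ} (h : Hv n (XX p q)) :
    Hv n (matAct (k := k) p q) := by
  let e : (Zp p ⊗[k] (Fin 3 → k)) ≃ₗ[k] Matrix (Fin 3) (Fin 3) k :=
    (TensorProduct.piScalarRight k k (Zp p) (Fin 3)).trans
      (Matrix.transposeLinearEquiv (Fin 3) (Fin 3) k k)
  have he : ∀ (x : Zp p) (y : Fin 3 → k) (i j : Fin 3), e (x ⊗ₜ y) i j = y j * Zp.co p x i := by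
    intro x y i j
    rfl
  refine Hv_congr n (XX p q) (matAct (k := k) p q) e ?_ ?_ h
  · intro a z
    induction z with
    | zero => simp
    | tmul x y =>
      ext i j
      rw [XX, ten_l_tmul, he, matAct_l, Matrix.mul_apply]
      change y j * ((rho k p (A.bb a)).mulVec (Zp.co p x)) i = _
      simp only [he, Matrix.mulVec, dotProduct, Finset.mul_sum]
      exact Finset.sum_congr rfl fun s _ => by ring
    | add x x' h h' => rw [map_add, map_add, map_add, map_add, h, h']
  · intro a z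
    induction z with
    | zero => simp
    | tmul x y =>
      ext i j
      rw [XX, ten_r_tmul, he, matAct_r, Matrix.mul_apply, ract_r]
      simp only [he, Matrix.vecMul, dotProduct, Finset.sum_mul]
      exact Finset.sum_congr rfl fun s _ => by ring
    | add x x' h h' => rw [map_add, map_add, map_add, map_add, h, h']

theorem stepA_mat (HK : HKD k) (n : ℕ) (p : (E k).Point) :
    Hv n (matAct (k := k) (vec k p) (vec k (p + Pz k))) := by
  have h := stepA HK n p 1 one_pos n le_rfl
  rw [one_smul] at h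
  exact hv_matAct h

/-- the hypothesis of STEPB. -/
theorem hv_evO (HK : HKD k) (n : ℕ) (t x0 : k) (hx : x0 ^ 2 = t ^ 2 * x0 - 1 + 2 * t) :
    Hv n (matAct (k := k) (fun i => evO t x0 hx (vx k i)) (fun i => evO t x0 hx (vx' k i))) := by
  let p1 : (E k).Point := pt x0 (1 + t * x0) (eqn0 hx)
  let p2 : (E k).Point := pt (t ^ 2 - x0) (-1 - t * (t ^ 2 - x0)) (eqn1 hx)
  have h := stepA_mat HK n p1
  have h2 : p1 + Pz k = p2 := (add_P0' hx).symm
  rw [h2] at h
  have e1 : (fun i => evO t x0 hx (vx k i)) =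
      vec k p1 := by
    funext i
    fin_cases i
    · change evO t x0 hx 1 = 1
      rw [map_one]
    · exact evO_ox t x0 hx
    · exact evO_oy t x0 hx
  have e2 : (fun i => evO t x0 hx (vx' k i)) =
      vec k p2 := by
    funext i
    fin_cases i
    · change evO t x0 hx 1 = 1
      rw [map_one]
    · exact evO_ox' t x0 hx
    · exact evO_oy' t x0 hx
  rw [e1, e2]
  exact h

theorem hv_inf (HK : HKD k) (n : ℕ) :
    Hv n (matAct (k := k) (R := k) ![0, 0, 1] ![1, 0, 1]) := by
  have h := stepA_mat HK n (0 : (E k).Point)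
  rw [zero_add] at h
  exact h

theorem hv_neg (HK : HKD k) (n : ℕ) :
    Hv n (matAct (k := k) (R := k) ![1, 0, -1] ![0, 0, 1]) := by
  have h := stepA_mat HK n (-(Pz k) : (E k).Point)
  rw [neg_add_cancel] at h
  have h2 : (-(Pz k) : (E k).Point) = pt 0 (-1) (by norm_num) := neg_P0
  rw [h2] at h
  exact h

end Run7.h258.Han
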