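import Mathlib
import Pool.Agent.Run7.h258.Han.StepA
import Pool.Agent.Run7.h975.Han.StepB
import Pool.Agent.Run7.h975.Han.StepC
import Pool.Agent.Run7.h921.Han.BRESc

/-!
The Hochschild homology of `A` vanishes in positive degrees.
-/

set_option autoImplicit false

open Run7.h817.Han Run7.h921.Han Run7.h975.Han Run7.h921.Han.F1

namespace Run7.h258.Han

variable {k : Type} [Field k] [CharZero k] [DecidableEq k] [IsAlgClosed k]

theorem hv_full (HK : HKD k) (n : ℕ) : Hv n (matAct (k := k) (vx k) (vx' k)) :=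
  STEPB n fun t x0 hx => hv_evO HK n t x0 hx

theorem hv_M (HK : HKD k) (N n : ℕ) : Hv n (mnAct k N) :=
  STEPC (hv_full HK) (hv_inf HK) (hv_neg HK) N n

theorem hv_A (HK : HKD k) (n : ℕ) : Hv (n + 1) (self k (A k)) :=
  BRESc (hv_M HK 0) n

end Run7.h258.Han
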